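import Pool.Agent.W784.RR.DefsC
import Pool.Agent.W784.PS.LogMin
import Pool.Agent.W329.PS_Energy
import Pool.Agent.Helper88.RB.P_exists_min
import Pool.Agent.Helper88.RB.P_EI_pos
import Pool.Agent.Helper88.RB.P_exists_bdd

/-! RR-C1: basic facts on `capF` (MP_6cd19d_an). -/

set_option autoImplicit false

namespace Pool.Agent.W880.RR

open MeasureTheory Set Filter Topology
open scoped ENNReal NNReal
open Pool.Agent.Helper88.RB Pool.Agent.W784.RR
open Pool.Agent.W784.PS (lk lk_cont lk_meas)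

theorem pc0 : PC0 := by
  intro n s K hs
  unfold capF EI En
  rw [if_pos hs]
  congr 1
  simp_rw [iInf_and, edist_dist]
  rw [ENNReal.inv_rpow, ← ENNReal.rpow_neg]
  congr 1
  ring

theorem dmeas {n : ℕ} (s : ℝ) :
    Measurable (fun z : E n × E n => (ENNReal.ofReal (dist z.1 z.2)) ^ (-s)) := by
  have h : Measurable (fun z : E n × E n => dist z.1 z.2) := continuous_dist.measurable
  exact (ENNReal.measurable_ofReal.comp h).pow_const _

theorem En_mono {n : ℕ} (p q : ℝ) (hp : 0 < p) (hpq : p ≤ q) (μ : Measure (E n))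
    (hμ : μ univ = 1) : (En p μ) ^ (1 / p) ≤ (En q μ) ^ (1 / q) := by
  have : IsProbabilityMeasure μ := ⟨hμ⟩
  have h1 : ∀ s : ℝ, 0 < s → En s μ =
      ∫⁻ z, ‖(ENNReal.ofReal (dist z.1 z.2)) ^ (-(1 : ℝ))‖ₑ ^ s ∂(μ.prod μ) := by
    intro s _
    unfold En
    rw [lintegral_prod _ (((dmeas 1).enorm.pow_const s).aemeasurable)]
    refine lintegral_congr fun x => lintegral_congr fun y => ?_
    rw [enorm_eq_self, ← ENNReal.rpow_mul]
    congr 1
    ring
  rw [h1 p hp, h1 q (hp.trans_le hpq)]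
  exact eLpNorm'_le_eLpNorm'_of_exponent_le
    (f := fun z : E n × E n => (ENNReal.ofReal (dist z.1 z.2)) ^ (-(1 : ℝ))) hp hpq (μ.prod μ)
    (dmeas 1).aestronglyMeasurable

theorem En_le_of {n : ℕ} (s : ℝ) (K : Set (E n)) (μ : Measure (E n)) (h1 : μ univ = 1)
    (h2 : μ Kᶜ = 0) : EI s K ≤ En s μ :=
  iInf_le_of_le μ (iInf_le_of_le h1 (iInf_le _ h2))

theorem EI_mono {n : ℕ} (p q : ℝ) (K : Set (E n)) (hp : 0 < p) (hpq : p ≤ q)
    (hK : IsCompact K) (hne : K.Nonempty) : (EI p K) ^ (1 / p) ≤ (EI q K) ^ (1 / q) := by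
  have hq := hp.trans_le hpq
  obtain ⟨μ, h1, h2, h3⟩ := exists_min hq hK hne
  rw [← h3]
  exact (ENNReal.rpow_le_rpow (En_le_of p K μ h1 h2) (by positivity)).trans
    (En_mono p q hp hpq μ h1)

/-- log energy with a given radius -/
noncomputable def LE' {n : ℕ} (R : ℝ) (μ : Measure (E n)) : ℝ≥0∞ :=
  ∫⁻ x, ∫⁻ y, lk R (dist x y) ∂μ ∂μ

/-- minimal log energy with a given radius -/
noncomputable def LI' {n : ℕ} (R : ℝ) (K : Set (E n)) : ℝ≥0∞ :=
  ⨅ (μ : Measure (E n)) (_ : μ univ = 1 ∧ μ Kᶜ = 0), LE' R μ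

theorem lk_eq {n : ℕ} (R : ℝ) (x y : E n) : (if x = y then (⊤ : ℝ≥0∞) else
    ENNReal.ofReal (Real.log (R / dist x y))) = lk R (dist x y) := by
  unfold lk
  by_cases h : x = y
  · rw [if_pos h, if_pos (by rw [h, dist_self])]
  · rw [if_neg h, if_neg (by rw [dist_eq_zero]; exact h)]

theorem LN_eq {n : ℕ} (K : Set (E n)) : LN K = LI' (Metric.diam K + 1) K := by
  unfold LN LI' LE'
  simp_rw [lk_eq]

theorem lk_add {R D t : ℝ} (hD : 0 < D) (hDR : D ≤ R) (ht : 0 ≤ t) (htD : t ≤ D) :
    lk R t = ENNReal.ofReal (Real.log (R / D)) + lk D t := by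
  have hR0 : 0 < R := by linarith
  unfold lk
  rcases ht.eq_or_lt with h | h
  · rw [if_pos h.symm, if_pos h.symm]
    simp
  · rw [if_neg h.ne', if_neg h.ne', ← ENNReal.ofReal_add]
    · congr 1
      rw [← Real.log_mul (by positivity) (by positivity)]
      congr 1
      field_simp
    · apply Real.log_nonneg
      rw [le_div_iff₀ hD]
      linarith
    · apply Real.log_nonneg
      rw [le_div_iff₀ h]
      linarith

theorem lkmeas {n : ℕ} {R : ℝ} (hR : 0 < R) :
    Measurable (fun z : E n × E n => lk R (dist z.1 z.2)) :=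
  (lk_meas hR).comp continuous_dist.measurable

theorem LE'_add {n : ℕ} {R : ℝ} {K : Set (E n)} (hK : Bornology.IsBounded K)
    (hR : Metric.diam K + 1 ≤ R) (μ : Measure (E n)) (h1 : μ univ = 1) (h2 : μ Kᶜ = 0) :
    LE' R μ = ENNReal.ofReal (Real.log (R / (Metric.diam K + 1))) + LE' (Metric.diam K + 1) μ := by
  have : IsProbabilityMeasure μ := ⟨h1⟩
  have hD : 0 < Metric.diam K + 1 := by
    have : 0 ≤ Metric.diam K := Metric.diam_nonneg
    linarith
  have hae : ∀ᵐ x ∂μ, x ∈ K := by
    rw [ae_iff]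
    exact h2
  unfold LE'
  have h3 : ∀ᵐ x ∂μ, ∫⁻ y, lk R (dist x y) ∂μ =
      ENNReal.ofReal (Real.log (R / (Metric.diam K + 1))) +
        ∫⁻ y, lk (Metric.diam K + 1) (dist x y) ∂μ := by
    filter_upwards [hae] with x hx
    have h4 : ∫⁻ y, lk R (dist x y) ∂μ =
        ∫⁻ y, (ENNReal.ofReal (Real.log (R / (Metric.diam K + 1))) +
          lk (Metric.diam K + 1) (dist x y)) ∂μ := by
      refine lintegral_congr_ae ?_
      filter_upwards [hae] with y hy
      refine lk_add hD hR dist_nonneg ?_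
      have := Metric.dist_le_diam_of_mem hK hx hy
      linarith
    rw [h4, lintegral_add_left measurable_const]
    simp
  rw [lintegral_congr_ae h3, lintegral_add_left measurable_const]
  simp

theorem LI'_add {n : ℕ} {R : ℝ} {K : Set (E n)} (hK : Bornology.IsBounded K)
    (hR : Metric.diam K + 1 ≤ R) :
    LI' R K = ENNReal.ofReal (Real.log (R / (Metric.diam K + 1))) + LN K := by
  rw [LN_eq]
  unfold LI'
  rw [ENNReal.add_iInf]
  refine iInf_congr fun μ => ?_
  by_cases h : μ univ = 1 ∧ μ Kᶜ = 0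
  · simp only [h, and_self, iInf_pos]
    exact LE'_add hK hR μ h.1 h.2
  · rw [iInf_neg h, iInf_neg h]
    simp

theorem capF_zero {n : ℕ} {R : ℝ} {K : Set (E n)} (hK : Bornology.IsBounded K)
    (hR : Metric.diam K + 1 ≤ R) :
    capF 0 K = if LI' R K = ⊤ then 0 else R * Real.exp (-(LI' R K).toReal) := by
  have hD : 0 < Metric.diam K + 1 := by
    have : 0 ≤ Metric.diam K := Metric.diam_nonneg
    linarith
  have hR0 : 0 < R := by linarith
  have h1 := LI'_add hK hR
  unfold capF
  rw [if_neg (lt_irrefl 0), if_pos rfl]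
  by_cases h : LN K = ⊤
  · have h2 : LI' R K = ⊤ := by
      rw [h1, h]
      simp
    rw [if_pos h, if_pos h2]
  · have h2 : LI' R K ≠ ⊤ := by
      rw [h1]
      exact ENNReal.add_ne_top.2 ⟨ENNReal.ofReal_ne_top, h⟩
    rw [if_neg h, if_neg h2, h1, ENNReal.toReal_add ENNReal.ofReal_ne_top h,
      ENNReal.toReal_ofReal, neg_add, Real.exp_add, ← mul_assoc]
    · congr 1
      rw [← Real.log_inv, Real.exp_log (by positivity)]
      field_simp
    · apply Real.log_nonneg
      rw [le_div_iff₀ hD]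
      linarith

theorem capF_nonneg {n : ℕ} (s : ℝ) (K : Set (E n)) : 0 ≤ capF s K := by
  unfold capF
  split_ifs
  · exact ENNReal.toReal_nonneg
  · exact le_rfl
  · have : 0 ≤ Metric.diam K := Metric.diam_nonneg
    positivity
  · exact ENNReal.toReal_nonneg

/-- Jensen inequality: comparison of the log energy with a Riesz energy -/
theorem LE'_le {n : ℕ} {K : Set (E n)} (hK : Bornology.IsBounded K) (R : ℝ)
    (hR : Metric.diam K + 1 ≤ R) (q : ℝ) (hq : 0 < q) (μ : Measure (E n)) (h1 : μ univ = 1)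
    (h2 : μ Kᶜ = 0) (hfin : En q μ ≠ ⊤) :
    1 ≤ R ^ q * (En q μ).toReal ∧
    LE' R μ ≤ ENNReal.ofReal (1 / q * Real.log (R ^ q * (En q μ).toReal)) := by
  have : IsProbabilityMeasure μ := ⟨h1⟩
  have hD0 : 0 ≤ Metric.diam K := Metric.diam_nonneg
  have hR0 : 0 < R := by linarith
  have hae : ∀ᵐ x ∂μ, x ∈ K := by
    rw [ae_iff]
    exact h2
  have hdR : ∀ x ∈ K, ∀ y ∈ K, dist x y ≤ R := by
    intro x hx y hy
    have := Metric.dist_le_diam_of_mem hK hx hy
    linarith
  -- lower bound of the energy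
  have hlow : ENNReal.ofReal (R ^ (-q)) ≤ En q μ := by
    have h3 : ENNReal.ofReal (R ^ (-q)) = ∫⁻ _x, ∫⁻ _y, ENNReal.ofReal (R ^ (-q)) ∂μ ∂μ := by simp
    rw [h3]
    refine lintegral_mono_ae ?_
    filter_upwards [hae] with x hx
    refine lintegral_mono_ae ?_
    filter_upwards [hae] with y hy
    rw [← ENNReal.ofReal_rpow_of_pos hR0]
    rw [ENNReal.rpow_neg, ENNReal.rpow_neg, ENNReal.inv_le_inv]
    exact ENNReal.rpow_le_rpow (ENNReal.ofReal_le_ofReal (hdR x hx y hy)) hq.le
  have hlow' : R ^ (-q) ≤ (En q μ).toReal := by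
    rw [← ENNReal.ofReal_le_iff_le_toReal hfin]
    exact hlow
  have hRq : 0 < R ^ q := by positivity
  have ha1 : 1 ≤ R ^ q * (En q μ).toReal := by
    calc (1 : ℝ) = R ^ q * R ^ (-q) := by
          rw [← Real.rpow_add hR0, add_neg_cancel, Real.rpow_zero]
      _ ≤ _ := mul_le_mul_of_nonneg_left hlow' hRq.le
  refine ⟨ha1, ?_⟩
  set a : ℝ := R ^ q * (En q μ).toReal with ha
  have ha0 : 0 < a := by linarith
  -- pointwise
  have hpt : ∀ x ∈ K, ∀ y ∈ K, lk R (dist x y) + ENNReal.ofReal (1 / q) ≤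
      ENNReal.ofReal (1 / q * (R ^ q / a)) * (ENNReal.ofReal (dist x y)) ^ (-q) +
        ENNReal.ofReal (1 / q * Real.log a) := by
    intro x hx y hy
    rcases (dist_nonneg (x := x) (y := y)).eq_or_lt with h | h
    · rw [← h, ENNReal.ofReal_zero, ENNReal.zero_rpow_of_neg (by linarith), ENNReal.mul_top]
      · simp
      · rw [ne_eq, ENNReal.ofReal_eq_zero, not_le]
        positivity
    · have hd := hdR x hx y hy
      unfold lk
      rw [if_neg h.ne', ENNReal.ofReal_rpow_of_pos h, ← ENNReal.ofReal_mul (by positivity),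
        ← ENNReal.ofReal_add (Real.log_nonneg (by rw [le_div_iff₀ h]; linarith)) (by positivity),
        ← ENNReal.ofReal_add (by positivity)
          (mul_nonneg (by positivity) (Real.log_nonneg ha1))]
      apply ENNReal.ofReal_le_ofReal
      have h4 : 1 / q * (R ^ q / a) * dist x y ^ (-q) = 1 / q * ((R / dist x y) ^ q / a) := by
        rw [Real.div_rpow hR0.le h.le, Real.rpow_neg h.le]
        field_simp
      rw [h4]
      have h5 : Real.log (R / dist x y) = 1 / q * Real.log ((R / dist x y) ^ q) := by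
        rw [Real.log_rpow (by positivity)]
        field_simp
      have h6 : Real.log ((R / dist x y) ^ q) ≤ (R / dist x y) ^ q / a - 1 + Real.log a := by
        have h7 := Real.log_le_sub_one_of_pos (show 0 < (R / dist x y) ^ q / a by positivity)
        rw [Real.log_div (by positivity) ha0.ne'] at h7
        linarith
      rw [h5]
      have h8 := mul_le_mul_of_nonneg_left h6 (show 0 ≤ 1 / q by positivity)
      linarith
  -- integrate
  have hint : LE' R μ + ENNReal.ofReal (1 / q) ≤
      ENNReal.ofReal (1 / q * (R ^ q / a)) * En q μ + ENNReal.ofReal (1 / q * Real.log a) := by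
    unfold LE' En
    have e1 : ∫⁻ x, ∫⁻ y, (lk R (dist x y) + ENNReal.ofReal (1 / q)) ∂μ ∂μ =
        ∫⁻ x, ∫⁻ y, lk R (dist x y) ∂μ ∂μ + ENNReal.ofReal (1 / q) := by
      simp_rw [lintegral_add_right _ measurable_const]
      simp
    have e2 : ∫⁻ x, ∫⁻ y, (ENNReal.ofReal (1 / q * (R ^ q / a)) *
        (ENNReal.ofReal (dist x y)) ^ (-q) + ENNReal.ofReal (1 / q * Real.log a)) ∂μ ∂μ =
        ENNReal.ofReal (1 / q * (R ^ q / a)) *
          ∫⁻ x, ∫⁻ y, (ENNReal.ofReal (dist x y)) ^ (-q) ∂μ ∂μ +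
            ENNReal.ofReal (1 / q * Real.log a) := by
      simp_rw [lintegral_add_right _ measurable_const,
        lintegral_const_mul' _ _ ENNReal.ofReal_ne_top]
      simp
    rw [← e1, ← e2]
    refine lintegral_mono_ae ?_
    filter_upwards [hae] with x hx
    refine lintegral_mono_ae ?_
    filter_upwards [hae] with y hy
    exact hpt x hx y hy
  have h3 : ENNReal.ofReal (1 / q * (R ^ q / a)) * En q μ = ENNReal.ofReal (1 / q) := by
    conv_lhs => rw [← ENNReal.ofReal_toReal hfin]
    rw [← ENNReal.ofReal_mul (by positivity)]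
    congr 1
    have h4 : (En q μ).toReal ≠ 0 := by
      intro h
      rw [ha, h, mul_zero] at ha0
      exact lt_irrefl _ ha0
    rw [ha]
    field_simp
  rw [h3, add_comm] at hint
  exact (ENNReal.add_le_add_iff_left ENNReal.ofReal_ne_top).1 hint

theorem rpow_cap {a q : ℝ} (ha : 0 < a) : Real.exp (-(1 / q * Real.log a)) = a ^ (-(1 / q)) := by
  rw [Real.rpow_def_of_pos ha]
  congr 1
  ring

theorem pc1 : PC1 := by
  intro n p q K hp hpq hK hne
  rcases hpq.eq_or_lt with heq | hlt
  · rw [heq]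
  have hq : 0 < q := lt_of_le_of_lt hp hlt
  rcases hp.eq_or_lt with hp0 | hp0
  · rw [← hp0]
    have hD0 : 0 ≤ Metric.diam K := Metric.diam_nonneg
    by_cases htop : EI q K = ⊤
    · have h1 : capF q K = 0 := by
        rw [pc0 n q K hq, htop]
        simp [hq]
      rw [h1]
      exact capF_nonneg 0 K
    · obtain ⟨μ, h1, h2, h3⟩ := exists_min hq hK hne
      have hfin : En q μ ≠ ⊤ := by
        rw [h3]
        exact htop
      obtain ⟨ha1, hle⟩ := LE'_le hK.isBounded _ le_rfl q hq μ h1 h2 hfin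
      have hLN : LN K ≤ LE' (Metric.diam K + 1) μ := by
        rw [LN_eq]
        exact iInf_le_of_le μ (iInf_le _ ⟨h1, h2⟩)
      have hLN2 := hLN.trans hle
      have hLNfin : LN K ≠ ⊤ := ne_top_of_le_ne_top ENNReal.ofReal_ne_top hLN2
      have hLNr : (LN K).toReal ≤ 1 / q *
          Real.log ((Metric.diam K + 1) ^ q * (En q μ).toReal) := by
        refine ENNReal.toReal_le_of_le_ofReal ?_ hLN2
        exact mul_nonneg (by positivity) (Real.log_nonneg ha1)
      have hE0 : 0 < (En q μ).toReal := by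
        refine ENNReal.toReal_pos ?_ hfin
        rw [h3]
        exact (EI_pos hq hK).ne'
      have h4 : capF q K = (En q μ).toReal ^ (-(1 / q)) := by
        rw [pc0 n q K hq, ← h3, ← ENNReal.toReal_rpow, ENNReal.toReal_inv,
          Real.inv_rpow ENNReal.toReal_nonneg, ← Real.rpow_neg ENNReal.toReal_nonneg]
      have h5 : capF 0 K = (Metric.diam K + 1) * Real.exp (-(LN K).toReal) := by
        unfold capF
        rw [if_neg (lt_irrefl 0), if_pos rfl, if_neg hLNfin]
      rw [h4, h5]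
      calc (En q μ).toReal ^ (-(1 / q)) = (Metric.diam K + 1) *
            Real.exp (-(1 / q * Real.log ((Metric.diam K + 1) ^ q * (En q μ).toReal))) := by
            rw [rpow_cap (by positivity), Real.mul_rpow (by positivity) (by positivity),
              ← Real.rpow_mul (by positivity)]
            have e : q * -(1 / q) = -1 := by
              field_simp
            rw [e, Real.rpow_neg_one]
            field_simp
        _ ≤ _ := by
            apply mul_le_mul_of_nonneg_left _ (by positivity)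
            exact Real.exp_le_exp.2 (by linarith)
  · rw [pc0 n q K hq, pc0 n p K hp0]
    apply ENNReal.toReal_mono
    · apply ENNReal.rpow_ne_top_of_nonneg (by positivity)
      exact ENNReal.inv_ne_top.2 (EI_pos hp0 hK).ne'
    · rw [ENNReal.inv_rpow, ENNReal.inv_rpow, ENNReal.inv_le_inv]
      exact EI_mono p q K hp0 hlt.le hK hne

theorem pc3 : PC3 := by
  intro n p K hn hp hK hne ε hε
  by_contra hcon
  push Not at hcon
  have hc0 : 0 ≤ capF p K := capF_nonneg p K
  obtain ⟨b, hb⟩ : ∃ b, b = capF p K + ε := ⟨_, rfl⟩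
  have hb0 : 0 < b := by rw [hb]; linarith
  have hcon' : ∀ ρ : ℝ, 0 < ρ → b < capF p (Metric.cthickening ρ K) := fun ρ hρ => by
    rw [hb]
    exact hcon ρ hρ
  have hj0 : ∀ j : ℕ, (0 : ℝ) < 1 / ((j : ℝ) + 1) := fun j => by positivity
  have hKj : ∀ j : ℕ, IsCompact (Metric.cthickening (1 / ((j : ℝ) + 1)) K) := fun j =>
    hK.cthickening
  have hnej : ∀ j : ℕ, (Metric.cthickening (1 / ((j : ℝ) + 1)) K).Nonempty := fun j =>
    hne.mono (Metric.self_subset_cthickening K)
  suffices h : b ≤ capF p K by linarith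
  rcases hp.eq_or_lt with h0 | h0
  · -- exponent zero
    rw [← h0] at hcon' ⊢
    obtain ⟨R, hR⟩ : ∃ R, R = Metric.diam (Metric.cthickening 1 K) + 1 := ⟨_, rfl⟩
    have hQ : IsCompact (Metric.cthickening 1 K) := hK.cthickening
    have hdK : ∀ K' : Set (E n), K' ⊆ Metric.cthickening 1 K → Metric.diam K' + 1 ≤ R := by
      intro K' h
      have := Metric.diam_mono h hQ.isBounded
      rw [hR]
      linarith
    have hR0 : 0 < R := by
      have : 0 ≤ Metric.diam (Metric.cthickening 1 K) := Metric.diam_nonneg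
      rw [hR]
      linarith
    have hkey : ∀ K' : Set (E n), K' ⊆ Metric.cthickening 1 K → b < capF 0 K' →
        LI' R K' ≤ ENNReal.ofReal (Real.log (R / b)) ∧ 0 ≤ Real.log (R / b) := by
      intro K' hsub h1
      rw [capF_zero (hQ.isBounded.subset hsub) (hdK K' hsub)] at h1
      by_cases h2 : LI' R K' = ⊤
      · rw [if_pos h2] at h1
        linarith
      · rw [if_neg h2] at h1
        have h3 : (LI' R K').toReal ≤ Real.log (R / b) := by
          have h4 : b / R < Real.exp (-(LI' R K').toReal) := by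
            rw [div_lt_iff₀ hR0]
            linarith
          have h5 := Real.log_lt_log (by positivity) h4
          rw [Real.log_exp] at h5
          have h6 : Real.log (b / R) = -Real.log (R / b) := by
            rw [← Real.log_inv, inv_div]
          linarith
        refine ⟨?_, (ENNReal.toReal_nonneg).trans h3⟩
        rw [← ENNReal.ofReal_toReal h2]
        exact ENNReal.ofReal_le_ofReal h3
    have hsub1 : ∀ j : ℕ, Metric.cthickening (1 / ((j : ℝ) + 1)) K ⊆ Metric.cthickening 1 K := by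
      intro j
      apply Metric.cthickening_mono
      rw [div_le_one (by positivity)]
      have : (0 : ℝ) ≤ j := Nat.cast_nonneg _
      linarith
    have hkc : Continuous fun z : E n × E n => lk R (dist z.1 z.2) :=
      (lk_cont hR0).comp continuous_dist
    obtain ⟨μ, h1, h2, h3⟩ := Pool.Agent.W329.PS.limit_energy
      (fun z : E n × E n => lk R (dist z.1 z.2)) hkc hK hne
      (ENNReal.ofReal (Real.log (R / b))) (by
        intro j
        obtain ⟨μ, h1, h2, h3⟩ := Pool.Agent.W329.PS.exists_min_gen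
          (fun z : E n × E n => lk R (dist z.1 z.2)) hkc (hKj j) (hnej j)
        refine ⟨μ, h1, h2, ?_⟩
        refine le_trans ?_ (hkey _ (hsub1 j) (hcon' _ (hj0 j))).1
        exact le_iInf fun σ => le_iInf fun hσ => h3 σ hσ.1 hσ.2)
    have hlog0 := (hkey _ (hsub1 0) (hcon' _ (hj0 0))).2
    have h4 : LI' R K ≤ ENNReal.ofReal (Real.log (R / b)) :=
      (iInf_le_of_le μ (iInf_le _ ⟨h1, h2⟩)).trans h3
    have h5 : LI' R K ≠ ⊤ := ne_top_of_le_ne_top ENNReal.ofReal_ne_top h4
    rw [capF_zero hK.isBounded (hdK K (Metric.self_subset_cthickening K)), if_neg h5]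
    have h6 : (LI' R K).toReal ≤ Real.log (R / b) := ENNReal.toReal_le_of_le_ofReal hlog0 h4
    calc b = R * Real.exp (-Real.log (R / b)) := by
          rw [← Real.log_inv, Real.exp_log (by positivity)]
          field_simp
      _ ≤ _ := by
          apply mul_le_mul_of_nonneg_left _ hR0.le
          exact Real.exp_le_exp.2 (by linarith)
  · -- positive exponent
    obtain ⟨T, hT⟩ : ∃ T : ℝ≥0∞, T = ((ENNReal.ofReal b) ^ p)⁻¹ := ⟨_, rfl⟩
    have hkc : Continuous fun z : E n × E n => (ENNReal.ofReal (dist z.1 z.2)) ^ (-p) :=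
      ENNReal.continuous_rpow_const.comp (ENNReal.continuous_ofReal.comp continuous_dist)
    obtain ⟨μ, h1, h2, h3⟩ := Pool.Agent.W329.PS.limit_energy
      (fun z : E n × E n => (ENNReal.ofReal (dist z.1 z.2)) ^ (-p)) hkc hK hne T (by
        intro j
        obtain ⟨μ, h1, h2, h3⟩ := exists_min h0 (hKj j) (hnej j)
        refine ⟨μ, h1, h2, ?_⟩
        have h4 := hcon' _ (hj0 j)
        rw [pc0 n p _ h0] at h4
        have h5 : ENNReal.ofReal b ≤
            ((EI p (Metric.cthickening (1 / ((j : ℝ) + 1)) K))⁻¹) ^ (1 / p) :=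
          ENNReal.ofReal_le_of_le_toReal h4.le
        have h6 : (ENNReal.ofReal b) ^ p ≤
            (EI p (Metric.cthickening (1 / ((j : ℝ) + 1)) K))⁻¹ := by
          have h7 := ENNReal.rpow_le_rpow h5 h0.le
          rwa [← ENNReal.rpow_mul, one_div_mul_cancel h0.ne', ENNReal.rpow_one] at h7
        have h7 : En p μ ≤ T := by
          rw [h3, hT]
          exact ENNReal.le_inv_iff_le_inv.1 h6
        exact h7)
    have h4 : EI p K ≤ T := (En_le_of p K μ h1 h2).trans h3
    have h5 : ENNReal.ofReal b ≤ ((EI p K)⁻¹) ^ (1 / p) := by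
      have h6 : (ENNReal.ofReal b) ^ p ≤ (EI p K)⁻¹ := by
        rw [hT] at h4
        exact ENNReal.le_inv_iff_le_inv.1 h4
      have h7 := ENNReal.rpow_le_rpow h6 (show 0 ≤ 1 / p by positivity)
      rwa [← ENNReal.rpow_mul, mul_one_div, div_self h0.ne', ENNReal.rpow_one] at h7
    rw [pc0 n p K h0]
    rw [← ENNReal.ofReal_le_iff_le_toReal]
    · exact h5
    · apply ENNReal.rpow_ne_top_of_nonneg (by positivity)
      exact ENNReal.inv_ne_top.2 (EI_pos h0 hK).ne'

/-! ### scaling -/

theorem map_ball {n : ℕ} (μ : Measure (E n)) (r ρ : ℝ) (hr : 0 < r)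
    (h : μ univ = 1 ∧ μ (Metric.closedBall 0 ρ)ᶜ = 0) :
    (μ.map (fun x => r • x)) univ = 1 ∧
      (μ.map (fun x => r • x)) (Metric.closedBall 0 (r * ρ))ᶜ = 0 := by
  have hm : Measurable (fun x : E n => r • x) := by fun_prop
  refine ⟨?_, ?_⟩
  · rw [Measure.map_apply hm MeasurableSet.univ, preimage_univ]
    exact h.1
  · rw [Measure.map_apply hm Metric.isClosed_closedBall.measurableSet.compl]
    refine measure_mono_null ?_ h.2
    intro x hx hx'
    apply hx
    rw [Metric.mem_closedBall, dist_zero_right] at hx' ⊢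
    rw [norm_smul, Real.norm_of_nonneg hr.le]
    exact mul_le_mul_of_nonneg_left hx' hr.le

theorem edist_smul' {n : ℕ} (r : ℝ) (hr : 0 < r) (x y : E n) :
    edist (r • x) (r • y) = ENNReal.ofReal r * edist x y := by
  rw [edist_dist, edist_dist, ← ENNReal.ofReal_mul hr.le, dist_smul₀, Real.norm_of_nonneg hr.le]

theorem smul_emb {n : ℕ} (r : ℝ) (hr : 0 < r) : MeasurableEmbedding (fun x : E n => r • x) :=
  (Homeomorph.smulOfNeZero r hr.ne').measurableEmbedding

theorem F_map {n : ℕ} (s : ℝ) (μ : Measure (E n)) (r : ℝ) (hr : 0 < r) :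
    ∫⁻ x, ∫⁻ y, (edist x y) ^ (-s) ∂(μ.map (fun x => r • x)) ∂(μ.map (fun x => r • x)) =
      ENNReal.ofReal r ^ (-s) * ∫⁻ x, ∫⁻ y, (edist x y) ^ (-s) ∂μ ∂μ := by
  have hr1 : ENNReal.ofReal r ≠ 0 := by
    rw [ne_eq, ENNReal.ofReal_eq_zero, not_le]
    exact hr
  have h4 : ENNReal.ofReal r ^ (-s) ≠ ⊤ := by
    intro h
    rw [ENNReal.rpow_eq_top_iff] at h
    rcases h with h | h
    · exact hr1 h.1
    · exact ENNReal.ofReal_ne_top h.1
  rw [(smul_emb r hr).lintegral_map, ← lintegral_const_mul' _ _ h4]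
  refine lintegral_congr fun x => ?_
  rw [(smul_emb r hr).lintegral_map, ← lintegral_const_mul' _ _ h4]
  refine lintegral_congr fun y => ?_
  rw [edist_smul' r hr]
  exact ENNReal.mul_rpow_of_ne_top ENNReal.ofReal_ne_top (edist_ne_top x y) _

theorem LE'_map {n : ℕ} (R : ℝ) (μ : Measure (E n)) (r : ℝ)
    (hr : 0 < r) : LE' (r * R) (μ.map (fun x => r • x)) = LE' R μ := by
  unfold LE'
  rw [(smul_emb r hr).lintegral_map]
  refine lintegral_congr fun x => ?_
  rw [(smul_emb r hr).lintegral_map]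
  refine lintegral_congr fun y => ?_
  rw [dist_smul₀, Real.norm_of_nonneg hr.le]
  unfold lk
  by_cases h : dist x y = 0
  · rw [if_pos h, if_pos (by rw [h, mul_zero])]
  · rw [if_neg h, if_neg (mul_ne_zero hr.ne' h), mul_div_mul_left _ _ hr.ne']

/-- infimum over a ball -/
theorem inf_scale {n : ℕ} (s r ρ : ℝ) (hr : 0 < r) :
    (⨅ (μ : Measure (E n)) (_ : μ univ = 1 ∧ μ (Metric.closedBall 0 (r * ρ))ᶜ = 0),
        ∫⁻ x, ∫⁻ y, (edist x y) ^ (-s) ∂μ ∂μ) ≤
      ENNReal.ofReal r ^ (-s) *
      ⨅ (μ : Measure (E n)) (_ : μ univ = 1 ∧ μ (Metric.closedBall 0 ρ)ᶜ = 0),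
        ∫⁻ x, ∫⁻ y, (edist x y) ^ (-s) ∂μ ∂μ := by
  have hr1 : ENNReal.ofReal r ≠ 0 := by
    rw [ne_eq, ENNReal.ofReal_eq_zero, not_le]
    exact hr
  have h4 : ENNReal.ofReal r ^ (-s) ≠ ⊤ := by
    intro h
    rw [ENNReal.rpow_eq_top_iff] at h
    rcases h with h | h
    · exact hr1 h.1
    · exact ENNReal.ofReal_ne_top h.1
  have h5 : ENNReal.ofReal r ^ (-s) ≠ 0 := by
    intro h
    rw [ENNReal.rpow_eq_zero_iff] at h
    rcases h with h | h
    · exact hr1 h.1
    · exact ENNReal.ofReal_ne_top h.1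
  rw [ENNReal.mul_iInf_of_ne h5 h4]
  refine le_iInf fun μ => ?_
  rw [ENNReal.mul_iInf_of_ne h5 h4]
  refine le_iInf fun hμ => ?_
  have : IsProbabilityMeasure μ := ⟨hμ.1⟩
  rw [← F_map s μ r hr]
  exact iInf_le_of_le _ (iInf_le _ (map_ball μ r ρ hr hμ))

/-- supremum over a ball -/
theorem sup_scale {n : ℕ} (s r ρ : ℝ) (hr : 0 < r) :
    ENNReal.ofReal r ^ (-s) *
      (⨆ (μ : Measure (E n)) (_ : μ univ = 1 ∧ μ (Metric.closedBall 0 ρ)ᶜ = 0),
        ∫⁻ x, ∫⁻ y, (edist x y) ^ (-s) ∂μ ∂μ) ≤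
      ⨆ (μ : Measure (E n)) (_ : μ univ = 1 ∧ μ (Metric.closedBall 0 (r * ρ))ᶜ = 0),
        ∫⁻ x, ∫⁻ y, (edist x y) ^ (-s) ∂μ ∂μ := by
  rw [ENNReal.mul_iSup]
  refine iSup_le fun μ => ?_
  rw [ENNReal.mul_iSup]
  refine iSup_le fun hμ => ?_
  have : IsProbabilityMeasure μ := ⟨hμ.1⟩
  rw [← F_map s μ r hr]
  exact le_iSup_of_le _ (le_iSup_of_le (map_ball μ r ρ hr hμ) le_rfl)

theorem rinv_cancel (r s : ℝ) (hr : 0 < r) (X : ℝ≥0∞) :
    ENNReal.ofReal r ^ (-s) * (ENNReal.ofReal r⁻¹ ^ (-s) * X) = X := by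
  have h : ENNReal.ofReal r ^ (-s) * ENNReal.ofReal r⁻¹ ^ (-s) = 1 := by
    rw [← ENNReal.mul_rpow_of_ne_top ENNReal.ofReal_ne_top ENNReal.ofReal_ne_top,
      ← ENNReal.ofReal_mul hr.le, mul_inv_cancel₀ hr.ne', ENNReal.ofReal_one, ENNReal.one_rpow]
  rw [← mul_assoc, h, one_mul]

theorem pc4 : PC4 := by
  intro n s r hn hs hr
  have hr' : 0 < r⁻¹ := by positivity
  have hrr : r⁻¹ * (r * 1) = 1 := by
    rw [mul_one]
    exact inv_mul_cancel₀ hr.ne'
  have hcB : IsCompact (Metric.closedBall (0 : E n) 1) := isCompact_closedBall _ _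
  have hball : (interior (Metric.closedBall (0 : E n) 1)).Nonempty := by
    refine ⟨0, mem_interior.2 ⟨Metric.ball 0 1, Metric.ball_subset_closedBall, Metric.isOpen_ball,
      Metric.mem_ball_self one_pos⟩⟩
  have hne : (Metric.closedBall (0 : E n) 1).Nonempty := ⟨0, Metric.mem_closedBall_self (by norm_num)⟩
  have hpos : ∀ q : ℝ, 0 < q → q < n → 0 < capF q (Metric.closedBall (0 : E n) 1) := by
    intro q hq hqn
    obtain ⟨σ, h1, h2, M, hM, hPE⟩ := exists_bdd hq hqn hball
    have : IsProbabilityMeasure σ := ⟨h1⟩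
    have h3 : EI q (Metric.closedBall (0 : E n) 1) ≤ M := by
      refine (En_le_of q _ σ h1 h2).trans ?_
      calc En q σ = ∫⁻ x, PE q σ x ∂σ := rfl
        _ ≤ ∫⁻ _x, M ∂σ := lintegral_mono hPE
        _ = M := by simp
    have h4 : EI q (Metric.closedBall (0 : E n) 1) ≠ ⊤ := ne_top_of_le_ne_top hM h3
    rw [pc0 n q _ hq]
    apply ENNReal.toReal_pos
    · intro h
      rw [ENNReal.rpow_eq_zero_iff] at h
      rcases h with h | h
      · exact ENNReal.inv_ne_zero.2 h4 h.1
      · have : 0 < 1 / q := by positivity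
        linarith [h.2]
    · apply ENNReal.rpow_ne_top_of_nonneg (by positivity)
      exact ENNReal.inv_ne_top.2 (EI_pos hq hcB).ne'
  rcases lt_trichotomy s 0 with h0 | h0 | h0
  · -- negative exponent
    have hns : ¬ 0 < s := not_lt.2 h0.le
    have hmain : (⨆ (μ : Measure (E n)) (_ : μ univ = 1 ∧ μ (Metric.closedBall 0 r)ᶜ = 0),
        ∫⁻ x, ∫⁻ y, (edist x y) ^ (-s) ∂μ ∂μ) = ENNReal.ofReal r ^ (-s) *
        ⨆ (μ : Measure (E n)) (_ : μ univ = 1 ∧ μ (Metric.closedBall 0 1)ᶜ = 0),
        ∫⁻ x, ∫⁻ y, (edist x y) ^ (-s) ∂μ ∂μ := by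
      apply le_antisymm
      · have h1 := sup_scale (n := n) s r⁻¹ (r * 1) hr'
        rw [hrr, mul_one] at h1
        have h2 := mul_le_mul_right h1 (ENNReal.ofReal r ^ (-s))
        rwa [rinv_cancel r s hr] at h2
      · have h1 := sup_scale (n := n) s r 1 hr
        rwa [mul_one] at h1
    constructor
    · unfold capF
      rw [if_neg hns, if_neg h0.ne, if_neg hns, if_neg h0.ne, hmain,
        ENNReal.mul_rpow_of_nonneg _ _ (by
          rw [neg_div, ← div_neg]
          exact div_nonneg zero_le_one (by linarith)), ← ENNReal.rpow_mul, ENNReal.toReal_mul]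
      have e : -s * (-1 / s) = 1 := by
        have hs0 : s ≠ 0 := h0.ne
        field_simp
      rw [e, ENNReal.rpow_one, ENNReal.toReal_ofReal hr.le]
    · unfold capF
      rw [if_neg hns, if_neg h0.ne]
      have hpw : 0 < -1 / s := by
        rw [neg_div, ← div_neg]
        exact div_pos one_pos (by linarith)
      have hfin : (⨆ (μ : Measure (E n)) (_ : μ univ = 1 ∧ μ (Metric.closedBall 0 1)ᶜ = 0),
          ∫⁻ x, ∫⁻ y, (edist x y) ^ (-s) ∂μ ∂μ) ≤ (2 : ℝ≥0∞) ^ (-s) := by
        refine iSup_le fun μ => iSup_le fun hμ => ?_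
        have : IsProbabilityMeasure μ := ⟨hμ.1⟩
        have hae : ∀ᵐ x ∂μ, x ∈ Metric.closedBall (0 : E n) 1 := by
          rw [ae_iff]
          exact hμ.2
        have e : (2 : ℝ≥0∞) ^ (-s) = ∫⁻ _x, ∫⁻ _y, (2 : ℝ≥0∞) ^ (-s) ∂μ ∂μ := by simp
        rw [e]
        refine lintegral_mono_ae ?_
        filter_upwards [hae] with x hx
        refine lintegral_mono_ae ?_
        filter_upwards [hae] with y hy
        apply ENNReal.rpow_le_rpow _ (by linarith)
        rw [edist_dist]
        rw [Metric.mem_closedBall] at hx hy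
        have h2 : dist x y ≤ 2 := by
          calc dist x y ≤ dist x 0 + dist y 0 := dist_triangle_right _ _ _
            _ ≤ 2 := by linarith
        calc ENNReal.ofReal (dist x y) ≤ ENNReal.ofReal 2 := ENNReal.ofReal_le_ofReal h2
          _ = 2 := by simp
      have hfin' : (⨆ (μ : Measure (E n)) (_ : μ univ = 1 ∧ μ (Metric.closedBall 0 1)ᶜ = 0),
          ∫⁻ x, ∫⁻ y, (edist x y) ^ (-s) ∂μ ∂μ) ≠ ⊤ :=
        ne_top_of_le_ne_top (ENNReal.rpow_ne_top_of_nonneg (by linarith) (by simp)) hfin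
      have hpos' : (⨆ (μ : Measure (E n)) (_ : μ univ = 1 ∧ μ (Metric.closedBall 0 1)ᶜ = 0),
          ∫⁻ x, ∫⁻ y, (edist x y) ^ (-s) ∂μ ∂μ) ≠ 0 := by
        obtain ⟨e, he⟩ : ∃ e : E n, ‖e‖ = 1 :=
          ⟨EuclideanSpace.single ⟨0, hn⟩ 1, by simp⟩
        set μ : Measure (E n) := (1 / 2 : ℝ≥0∞) • (Measure.dirac 0 + Measure.dirac e) with hμ
        have hμ1 : μ univ = 1 := by
          rw [hμ, Measure.smul_apply, Measure.add_apply]
          simp only [measure_univ, smul_eq_mul]
          rw [one_add_one_eq_two, one_div]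
          exact ENNReal.inv_mul_cancel (by simp) (by simp)
        have hμ2 : μ (Metric.closedBall 0 1)ᶜ = 0 := by
          have hmc : MeasurableSet (Metric.closedBall (0 : E n) 1)ᶜ :=
            Metric.isClosed_closedBall.measurableSet.compl
          rw [hμ, Measure.smul_apply, Measure.add_apply, Measure.dirac_apply' _ hmc,
            Measure.dirac_apply' _ hmc, indicator_of_notMem, indicator_of_notMem]
          · simp
          · simp [he]
          · simp
        intro h
        have h1 : ∫⁻ x, ∫⁻ y, (edist x y) ^ (-s) ∂μ ∂μ = 0 := by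
          refine le_antisymm ?_ bot_le
          have h2 := le_iSup_of_le (f := fun μ : Measure (E n) =>
            ⨆ (_ : μ univ = 1 ∧ μ (Metric.closedBall 0 1)ᶜ = 0),
              ∫⁻ x, ∫⁻ y, (edist x y) ^ (-s) ∂μ ∂μ) μ (le_iSup_of_le ⟨hμ1, hμ2⟩ le_rfl)
          rw [h] at h2
          exact h2
        have hk : ∀ x : E n, Measurable fun y : E n => (edist x y) ^ (-s) := fun x =>
          ((continuous_const.edist continuous_id).measurable).pow_const _
        have h2 : ∀ x : E n, ∫⁻ y, (edist x y) ^ (-s) ∂μ =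
            (1 / 2) * ((edist x 0) ^ (-s) + (edist x e) ^ (-s)) := by
          intro x
          rw [hμ, lintegral_smul_measure, lintegral_add_measure, lintegral_dirac' _ (hk x),
            lintegral_dirac' _ (hk x), smul_eq_mul]
        have hk2 : Measurable fun x : E n =>
            (1 / 2 : ℝ≥0∞) * ((edist x 0) ^ (-s) + (edist x e) ^ (-s)) := by
          apply Measurable.const_mul
          exact (((continuous_id.edist continuous_const).measurable).pow_const _).add
            (((continuous_id.edist continuous_const).measurable).pow_const _)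
        simp_rw [h2] at h1
        rw [hμ, lintegral_smul_measure, lintegral_add_measure, lintegral_dirac' _ hk2,
            lintegral_dirac' _ hk2, smul_eq_mul] at h1
        have h3 : edist (0 : E n) e = 1 := by
          rw [edist_dist, dist_zero_left, he, ENNReal.ofReal_one]
        have h4 : edist e (0 : E n) = 1 := by rw [edist_comm, h3]
        rw [h3, h4] at h1
        simp at h1
      apply ENNReal.toReal_pos
      · intro h
        rw [ENNReal.rpow_eq_zero_iff] at h
        rcases h with h | h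
        · exact hpos' h.1
        · linarith [h.2]
      · exact ENNReal.rpow_ne_top_of_nonneg hpw.le hfin'
  · -- exponent zero
    rw [h0]
    constructor
    · obtain ⟨R, hR⟩ : ∃ R : ℝ, R = 3 + 1 / r := ⟨_, rfl⟩
      have hR0 : 0 < R := by rw [hR]; positivity
      have hd1 : Metric.diam (Metric.closedBall (0 : E n) 1) + 1 ≤ R := by
        have h1 := Metric.diam_closedBall (x := (0 : E n)) (r := 1) (by norm_num)
        have h2 : 0 < 1 / r := by positivity
        rw [hR]
        linarith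
      have hdr : Metric.diam (Metric.closedBall (0 : E n) r) + 1 ≤ r * R := by
        have h1 := Metric.diam_closedBall (x := (0 : E n)) hr.le
        have h2 : r * R = 3 * r + 1 := by
          rw [hR]
          field_simp
        rw [h2]
        linarith
      rw [capF_zero Metric.isBounded_closedBall hd1, capF_zero Metric.isBounded_closedBall hdr]
      have hsc : ∀ (R t ρ : ℝ), 0 < R → 0 < t →
          LI' (t * R) (Metric.closedBall (0 : E n) (t * ρ)) ≤
            LI' R (Metric.closedBall (0 : E n) ρ) := by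
        intro R t ρ hR ht
        refine le_iInf fun μ => le_iInf fun hμ => ?_
        have : IsProbabilityMeasure μ := ⟨hμ.1⟩
        rw [← LE'_map R μ t ht]
        exact iInf_le_of_le _ (iInf_le _ (map_ball μ t ρ ht hμ))
      have hLI : LI' (r * R) (Metric.closedBall (0 : E n) r) =
          LI' R (Metric.closedBall (0 : E n) 1) := by
        apply le_antisymm
        · have h1 := hsc R r 1 hR0 hr
          rwa [mul_one] at h1
        · have h1 := hsc (r * R) r⁻¹ r (by positivity) hr'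
          rwa [inv_mul_cancel₀ hr.ne', ← mul_assoc, inv_mul_cancel₀ hr.ne', one_mul] at h1
      rw [hLI]
      split_ifs
      · rw [mul_zero]
      · ring
    · have hn' : (1 : ℝ) ≤ n := by exact_mod_cast hn
      exact (hpos (n / 2) (by linarith) (by linarith)).trans_le
        (pc1 n 0 (n / 2) _ le_rfl (by linarith) hcB hne)
  · -- positive exponent
    refine ⟨?_, hpos s h0 hs⟩
    have hmain : (⨅ (μ : Measure (E n)) (_ : μ univ = 1 ∧ μ (Metric.closedBall 0 r)ᶜ = 0),
        ∫⁻ x, ∫⁻ y, (edist x y) ^ (-s) ∂μ ∂μ) = ENNReal.ofReal r ^ (-s) *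
        ⨅ (μ : Measure (E n)) (_ : μ univ = 1 ∧ μ (Metric.closedBall 0 1)ᶜ = 0),
        ∫⁻ x, ∫⁻ y, (edist x y) ^ (-s) ∂μ ∂μ := by
      apply le_antisymm
      · have h1 := inf_scale (n := n) s r 1 hr
        rwa [mul_one] at h1
      · have h1 := inf_scale (n := n) s r⁻¹ (r * 1) hr'
        rw [hrr, mul_one] at h1
        have h2 := mul_le_mul_right h1 (ENNReal.ofReal r ^ (-s))
        rwa [rinv_cancel r s hr] at h2
    unfold capF
    rw [if_pos h0, if_pos h0, hmain, ENNReal.mul_rpow_eq_ite]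
    rw [if_neg]
    · rw [← ENNReal.rpow_mul, ENNReal.toReal_mul]
      have e : -s * (-1 / s) = 1 := by
        field_simp
      rw [e, ENNReal.rpow_one, ENNReal.toReal_ofReal hr.le]
    · have hr1 : ENNReal.ofReal r ≠ 0 := by
        rw [ne_eq, ENNReal.ofReal_eq_zero, not_le]
        exact hr
      rintro ⟨h, _⟩
      rcases h with h | h
      · rw [ENNReal.rpow_eq_zero_iff] at h
        rcases h.1 with h | h
        · exact hr1 h.1
        · exact ENNReal.ofReal_ne_top h.1
      · rw [ENNReal.rpow_eq_top_iff] at h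
        rcases h.1 with h | h
        · exact hr1 h.1
        · exact ENNReal.ofReal_ne_top h.1

end Pool.Agent.W880.RR
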