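import Pool.Agent.W880.RR.C1

/-! RR-C3: right continuity of `capF` in the exponent up to thickening (MP_6cd19d_an). -/

set_option autoImplicit false

namespace Pool.Agent.W880.RR

open MeasureTheory Set Filter Topology
open scoped ENNReal NNReal
open Pool.Agent.Helper88.RB Pool.Agent.W784.RR
open Pool.Agent.W784.PS (lk lk_cont lk_meas)

theorem capF_ge {n : ℕ} {p : ℝ} (hp : 0 < p) {K : Set (E n)} (hK : IsCompact K)
    (μ : Measure (E n)) (h1 : μ univ = 1) (h2 : μ Kᶜ = 0) (y : ℝ) (hy : 0 < y)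
    (h : En p μ ≤ ENNReal.ofReal y) : y ^ (-(1 / p)) ≤ capF p K := by
  have h3 : EI p K ≤ ENNReal.ofReal y := (En_le_of p K μ h1 h2).trans h
  rw [pc0 n p K hp]
  have h4 : ((ENNReal.ofReal y)⁻¹) ^ (1 / p) ≤ ((EI p K)⁻¹) ^ (1 / p) := by
    apply ENNReal.rpow_le_rpow _ (by positivity)
    exact ENNReal.inv_le_inv.2 h3
  have h5 : ((EI p K)⁻¹) ^ (1 / p) ≠ ⊤ := by
    apply ENNReal.rpow_ne_top_of_nonneg (by positivity)
    exact ENNReal.inv_ne_top.2 (EI_pos hp hK).ne'
  have h6 := ENNReal.toReal_mono h5 h4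
  rwa [← ENNReal.toReal_rpow, ENNReal.toReal_inv, ENNReal.toReal_ofReal hy.le,
    Real.inv_rpow hy.le, ← Real.rpow_neg hy.le] at h6

/-- interpolation of energies -/
theorem En_interp {n : ℕ} (p s θ : ℝ) (hp : 0 < p) (hs : 0 < s) (h0 : 0 < θ) (h1 : θ < 1)
    (μ : Measure (E n)) [IsProbabilityMeasure μ] :
    En ((1 - θ) * p + θ * s) μ ≤ (En p μ) ^ (1 - θ) * (En s μ) ^ θ := by
  have e : ∀ q : ℝ, En q μ =
      ∫⁻ z, (ENNReal.ofReal (dist z.1 z.2)) ^ (-q) ∂(μ.prod μ) := by
    intro q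
    unfold En
    rw [lintegral_prod _ (dmeas q).aemeasurable]
  rw [e, e, e]
  refine le_trans (lintegral_mono fun z => ?_)
    (ENNReal.lintegral_mul_norm_pow_le (dmeas p).aemeasurable (dmeas s).aemeasurable
      (by linarith : (0 : ℝ) ≤ 1 - θ) h0.le (by ring))
  rw [← ENNReal.rpow_mul, ← ENNReal.rpow_mul]
  rcases eq_or_ne (ENNReal.ofReal (dist z.1 z.2)) 0 with hz | hz
  · rw [hz, ENNReal.zero_rpow_of_neg (y := -p * (1 - θ)) (by nlinarith),
      ENNReal.zero_rpow_of_neg (y := -s * θ) (by nlinarith)]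
    simp
  · rw [← ENNReal.rpow_add _ _ hz ENNReal.ofReal_ne_top]
    apply le_of_eq
    congr 1
    ring

theorem pc2_pos (hmoll : PMoll) (n : ℕ) (p0 : ℝ) (K : Set (E n)) (hn : 1 ≤ n) (hp0 : 0 < p0)
    (hpn : p0 < n) (hK : IsCompact K) (hne : K.Nonempty) (ρ ε : ℝ) (hρ : 0 < ρ) (hε : 0 < ε) :
    ∃ δ : ℝ, 0 < δ ∧ ∀ p : ℝ, p0 < p → p < p0 + δ →
      capF p0 K - ε ≤ capF p (Metric.cthickening ρ K) := by
  by_cases htop : EI p0 K = ⊤
  · refine ⟨1, one_pos, fun p _ _ => ?_⟩
    have h1 : capF p0 K = 0 := by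
      rw [pc0 n p0 K hp0, htop]
      simp [hp0]
    have h2 := capF_nonneg p (Metric.cthickening ρ K)
    linarith
  · obtain ⟨μ, h1, h2, h3⟩ := exists_min hp0 hK hne
    obtain ⟨μ', g1, g2, g3, g4, _⟩ := hmoll n K μ ρ hn hK h1 h2 hρ
    have : IsProbabilityMeasure μ' := ⟨g1⟩
    obtain ⟨s1, hs1⟩ : ∃ s1 : ℝ, s1 = (p0 + n) / 2 := ⟨_, rfl⟩
    have hs1p : p0 < s1 := by rw [hs1]; linarith
    have hs1n : s1 < n := by rw [hs1]; linarith
    obtain ⟨M, hM, hPE⟩ := g3 s1 (by linarith) hs1n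
    obtain ⟨b, hb⟩ : ∃ b : ℝ, b = M.toReal + 1 := ⟨_, rfl⟩
    have hb0 : 0 < b := by
      rw [hb]
      have : 0 ≤ M.toReal := ENNReal.toReal_nonneg
      linarith
    have hEb : En s1 μ' ≤ ENNReal.ofReal b := by
      calc En s1 μ' = ∫⁻ x, PE s1 μ' x ∂μ' := rfl
        _ ≤ ∫⁻ _x, M ∂μ' := lintegral_mono hPE
        _ = M := by simp
        _ = ENNReal.ofReal M.toReal := (ENNReal.ofReal_toReal hM).symm
        _ ≤ _ := ENNReal.ofReal_le_ofReal (by rw [hb]; linarith)
    obtain ⟨a, ha⟩ : ∃ a : ℝ, a = (EI p0 K).toReal := ⟨_, rfl⟩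
    have ha0 : 0 < a := by
      rw [ha]
      exact ENNReal.toReal_pos (EI_pos hp0 hK).ne' htop
    have hEa : En p0 μ' ≤ ENNReal.ofReal a := by
      rw [ha, ENNReal.ofReal_toReal htop, ← h3]
      exact g4 p0 hp0
    have hcap : capF p0 K = a ^ (-(1 / p0)) := by
      rw [pc0 n p0 K hp0, ← ENNReal.toReal_rpow, ENNReal.toReal_inv, ← ha,
        Real.inv_rpow ha0.le, ← Real.rpow_neg ha0.le]
    have hds : 0 < s1 - p0 := by linarith
    have hcont : ContinuousAt (fun p : ℝ => (a ^ (1 - (p - p0) / (s1 - p0)) *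
        b ^ ((p - p0) / (s1 - p0))) ^ (-(1 / p))) p0 := by
      have e1 : ContinuousAt (fun p : ℝ => a ^ (1 - (p - p0) / (s1 - p0))) p0 := by
        apply ContinuousAt.rpow continuousAt_const
        · fun_prop
        · left
          exact ha0.ne'
      have e2 : ContinuousAt (fun p : ℝ => b ^ ((p - p0) / (s1 - p0))) p0 := by
        apply ContinuousAt.rpow continuousAt_const
        · fun_prop
        · left
          exact hb0.ne'
      apply ContinuousAt.rpow (e1.mul e2)
      · exact (continuousAt_const.div continuousAt_id hp0.ne').neg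
      · left
        exact (mul_pos (Real.rpow_pos_of_pos ha0 _) (Real.rpow_pos_of_pos hb0 _)).ne'
    have hlim := hcont.tendsto
    simp only [sub_self, zero_div, sub_zero, Real.rpow_one, Real.rpow_zero, mul_one] at hlim
    have hev := hlim.eventually (lt_mem_nhds (show a ^ (-(1 / p0)) - ε < a ^ (-(1 / p0)) by
      linarith))
    rw [Metric.eventually_nhds_iff] at hev
    obtain ⟨δ1, hδ1, hev⟩ := hev
    refine ⟨min δ1 (s1 - p0), lt_min hδ1 hds, fun p hp hpd => ?_⟩
    have hpd1 : p < p0 + δ1 := hpd.trans_le (by gcongr; exact min_le_left _ _)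
    have hpd2 : p < s1 := by
      have : min δ1 (s1 - p0) ≤ s1 - p0 := min_le_right _ _
      linarith
    have h5 := hev (y := p) (by rw [Real.dist_eq, abs_of_pos (by linarith)]; linarith)
    rw [hcap]
    refine h5.le.trans ?_
    refine capF_ge (by linarith) hK.cthickening μ' g1 g2 _ (by positivity) ?_
    obtain ⟨θ, hθ⟩ : ∃ θ : ℝ, θ = (p - p0) / (s1 - p0) := ⟨_, rfl⟩
    have hθ0 : 0 < θ := by
      rw [hθ]
      exact div_pos (by linarith) hds
    have hθ1 : θ < 1 := by
      rw [hθ, div_lt_one hds]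
      linarith
    rw [← hθ]
    have hpe : p = (1 - θ) * p0 + θ * s1 := by
      rw [hθ]
      field_simp
      ring
    calc En p μ' = En ((1 - θ) * p0 + θ * s1) μ' := by rw [← hpe]
      _ ≤ (En p0 μ') ^ (1 - θ) * (En s1 μ') ^ θ :=
          En_interp p0 s1 θ hp0 (by linarith) hθ0 hθ1 μ'
      _ ≤ (ENNReal.ofReal a) ^ (1 - θ) * (ENNReal.ofReal b) ^ θ := by
          apply mul_le_mul'
          · exact ENNReal.rpow_le_rpow hEa (by linarith)
          · exact ENNReal.rpow_le_rpow hEb hθ0.le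
      _ = _ := by
          rw [ENNReal.ofReal_rpow_of_pos ha0, ENNReal.ofReal_rpow_of_pos hb0,
            ← ENNReal.ofReal_mul (by positivity)]

theorem exp_bound (x : ℝ) (hx : 0 ≤ x) : Real.exp x ≤ 1 + x + x ^ 2 * Real.exp x := by
  -- `exp x (1 - x) ≤ 1`
  have h1 : (1 - x) * Real.exp x ≤ 1 := by
    have h2 := Real.add_one_le_exp (-x)
    calc (1 - x) * Real.exp x ≤ Real.exp (-x) * Real.exp x := by
          apply mul_le_mul_of_nonneg_right _ (Real.exp_nonneg _)
          linarith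
      _ = 1 := by rw [← Real.exp_add, neg_add_cancel, Real.exp_zero]
  have h2 : (1 - x) * Real.exp x * (1 + x) ≤ 1 * (1 + x) :=
    mul_le_mul_of_nonneg_right h1 (by linarith)
  nlinarith

theorem lkmeas1 {n : ℕ} {R : ℝ} (hR : 0 < R) (x : E n) :
    Measurable (fun y : E n => lk R (dist x y)) :=
  (lk_meas hR).comp (continuous_const.dist continuous_id).measurable

theorem int3 {n : ℕ} (μ : Measure (E n)) [IsProbabilityMeasure μ] (Q : Set (E n))
    (hae : ∀ᵐ x ∂μ, x ∈ Q) (R : ℝ) (hR : 0 < R) (a b c : ℝ≥0∞) (ha : a ≠ ⊤) (hb : b ≠ ⊤)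
    (hc : c ≠ ⊤) (p s : ℝ)
    (hpt : ∀ x ∈ Q, ∀ y ∈ Q, a * (ENNReal.ofReal (dist x y)) ^ (-p) ≤
        1 + b * lk R (dist x y) + c * (ENNReal.ofReal (dist x y)) ^ (-s)) :
    a * En p μ ≤ 1 + b * LE' R μ + c * En s μ := by
  have hmx : ∀ x : E n, Measurable fun y : E n => 1 + b * lk R (dist x y) := fun x =>
    ((lkmeas1 hR x).const_mul b).const_add 1
  have hm2 : Measurable fun z : E n × E n => 1 + b * lk R (dist z.1 z.2) :=
    ((lkmeas hR).const_mul b).const_add 1
  have hm1 : Measurable fun x : E n => ∫⁻ y, (1 + b * lk R (dist x y)) ∂μ :=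
    hm2.lintegral_prod_right'
  have e1 : a * En p μ = ∫⁻ x, ∫⁻ y, a * (ENNReal.ofReal (dist x y)) ^ (-p) ∂μ ∂μ := by
    unfold En
    simp_rw [lintegral_const_mul' _ _ ha]
  have e2 : c * En s μ = ∫⁻ x, ∫⁻ y, c * (ENNReal.ofReal (dist x y)) ^ (-s) ∂μ ∂μ := by
    unfold En
    simp_rw [lintegral_const_mul' _ _ hc]
  have e3 : 1 + b * LE' R μ = ∫⁻ x, ∫⁻ y, (1 + b * lk R (dist x y)) ∂μ ∂μ := by
    unfold LE'
    simp_rw [lintegral_add_left measurable_const, lintegral_const_mul' _ _ hb]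
    simp
  rw [e1, e2, e3, ← lintegral_add_left hm1]
  refine lintegral_mono_ae ?_
  filter_upwards [hae] with x hx
  rw [← lintegral_add_left (hmx x)]
  refine lintegral_mono_ae ?_
  filter_upwards [hae] with y hy
  exact hpt x hx y hy

theorem pc2_zero (hmoll : PMoll) (n : ℕ) (K : Set (E n)) (hn : 1 ≤ n)
    (hK : IsCompact K) (hne : K.Nonempty) (ρ ε : ℝ) (hρ : 0 < ρ) (hε : 0 < ε) :
    ∃ δ : ℝ, 0 < δ ∧ ∀ p : ℝ, 0 < p → p < δ →
      capF 0 K - ε ≤ capF p (Metric.cthickening ρ K) := by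
  have hQ : IsCompact (Metric.cthickening ρ K) := hK.cthickening
  have hsub : K ⊆ Metric.cthickening ρ K := Metric.self_subset_cthickening K
  obtain ⟨R, hR⟩ : ∃ R, R = Metric.diam (Metric.cthickening ρ K) + 1 := ⟨_, rfl⟩
  have hR0 : 0 < R := by
    have : 0 ≤ Metric.diam (Metric.cthickening ρ K) := Metric.diam_nonneg
    rw [hR]
    linarith
  have hRK : Metric.diam K + 1 ≤ R := by
    have := Metric.diam_mono hsub hQ.isBounded
    rw [hR]
    linarith
  have hdR : ∀ x ∈ Metric.cthickening ρ K, ∀ y ∈ Metric.cthickening ρ K, dist x y ≤ R := by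
    intro x hx y hy
    have := Metric.dist_le_diam_of_mem hQ.isBounded hx hy
    rw [hR]
    linarith
  rw [capF_zero hK.isBounded hRK]
  by_cases htop : LI' R K = ⊤
  · refine ⟨1, one_pos, fun p _ _ => ?_⟩
    rw [if_pos htop]
    have h2 := capF_nonneg p (Metric.cthickening ρ K)
    linarith
  · rw [if_neg htop]
    have hkc : Continuous fun z : E n × E n => lk R (dist z.1 z.2) :=
      (lk_cont hR0).comp continuous_dist
    obtain ⟨μ, h1, h2, h3⟩ := Pool.Agent.W329.PS.exists_min_gen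
      (fun z : E n × E n => lk R (dist z.1 z.2)) hkc hK hne
    have hLEμ : LE' R μ ≤ LI' R K := le_iInf fun σ => le_iInf fun hσ => h3 σ hσ.1 hσ.2
    obtain ⟨μ', g1, g2, g3, _, g5⟩ := hmoll n K μ ρ hn hK h1 h2 hρ
    have hprob : IsProbabilityMeasure μ' := ⟨g1⟩
    have g5' : LE' R μ' ≤ LE' R μ := by
      have h5 := g5 R hR0 hdR
      simp_rw [lk_eq] at h5
      exact h5
    have hLE : LE' R μ' ≤ LI' R K := g5'.trans hLEμ
    have hLEfin : LE' R μ' ≠ ⊤ := ne_top_of_le_ne_top htop hLE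
    obtain ⟨L, hL⟩ : ∃ L : ℝ, L = (LI' R K).toReal := ⟨_, rfl⟩
    have hL0 : 0 ≤ L := by
      rw [hL]
      exact ENNReal.toReal_nonneg
    have hLE2 : LE' R μ' ≤ ENNReal.ofReal L := by
      rw [hL, ENNReal.ofReal_toReal htop]
      exact hLE
    have hn' : (1 : ℝ) ≤ n := by exact_mod_cast hn
    obtain ⟨s1, hs1⟩ : ∃ s1 : ℝ, s1 = (n : ℝ) / 2 := ⟨_, rfl⟩
    have hs1p : 0 < s1 := by rw [hs1]; linarith
    have hs1n : s1 < n := by rw [hs1]; linarith
    obtain ⟨M, hM, hPE⟩ := g3 s1 hs1p hs1n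
    have hEM : En s1 μ' ≤ ENNReal.ofReal M.toReal := by
      calc En s1 μ' = ∫⁻ x, PE s1 μ' x ∂μ' := rfl
        _ ≤ ∫⁻ _x, M ∂μ' := lintegral_mono hPE
        _ = M := by simp
        _ = ENNReal.ofReal M.toReal := (ENNReal.ofReal_toReal hM).symm
    obtain ⟨m, hm⟩ : ∃ m : ℝ, m = 8 / s1 ^ 2 * R ^ s1 * M.toReal := ⟨_, rfl⟩
    have hm0 : 0 ≤ m := by
      rw [hm]
      have : 0 ≤ M.toReal := ENNReal.toReal_nonneg
      positivity
    have hae : ∀ᵐ x ∂μ', x ∈ Metric.cthickening ρ K := by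
      rw [ae_iff]
      exact g2
    refine ⟨min (s1 / 2) (ε / (R * m + 1)), by positivity, fun p hp hpd => ?_⟩
    have hpd1 : p < s1 / 2 := hpd.trans_le (min_le_left _ _)
    have hpd2 : p < ε / (R * m + 1) := hpd.trans_le (min_le_right _ _)
    -- pointwise
    have hpt : ∀ x ∈ Metric.cthickening ρ K, ∀ y ∈ Metric.cthickening ρ K,
        ENNReal.ofReal (R ^ p) * (ENNReal.ofReal (dist x y)) ^ (-p) ≤
        1 + ENNReal.ofReal p * lk R (dist x y) +
          ENNReal.ofReal (p ^ 2 * (8 / s1 ^ 2 * R ^ s1)) * (ENNReal.ofReal (dist x y)) ^ (-s1) := by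
      intro x hx y hy
      rcases (dist_nonneg (x := x) (y := y)).eq_or_lt with h | h
      · rw [← h, ENNReal.ofReal_zero, ENNReal.zero_rpow_of_neg (y := -s1) (by linarith),
          ENNReal.mul_top (by rw [ne_eq, ENNReal.ofReal_eq_zero, not_le]; positivity)]
        simp
      · have hd := hdR x hx y hy
        unfold lk
        rw [if_neg h.ne', ENNReal.ofReal_rpow_of_pos h, ENNReal.ofReal_rpow_of_pos h,
          ← ENNReal.ofReal_mul (by positivity), ← ENNReal.ofReal_mul hp.le,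
          ← ENNReal.ofReal_mul (by positivity)]
        obtain ⟨w, hw⟩ : ∃ w : ℝ, w = Real.log (R / dist x y) := ⟨_, rfl⟩
        have hw0 : 0 ≤ w := by
          rw [hw]
          apply Real.log_nonneg
          rw [le_div_iff₀ h]
          linarith
        have hexp : ∀ q : ℝ, R ^ q * dist x y ^ (-q) = Real.exp (q * w) := by
          intro q
          rw [hw, mul_comm q, Real.exp_mul, Real.exp_log (by positivity),
            Real.div_rpow hR0.le h.le, Real.rpow_neg h.le]
          field_simp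
        rw [← hw]
        have e1 : p ^ 2 * (8 / s1 ^ 2 * R ^ s1) * dist x y ^ (-s1) =
            p ^ 2 * (8 / s1 ^ 2) * Real.exp (s1 * w) := by
          rw [← hexp s1]
          ring
        rw [e1, hexp p, ← ENNReal.ofReal_one, ← ENNReal.ofReal_add zero_le_one (by positivity),
          ← ENNReal.ofReal_add (by positivity) (by positivity)]
        apply ENNReal.ofReal_le_ofReal
        have h6 := exp_bound (p * w) (by positivity)
        have h7 : Real.exp (p * w) ≤ Real.exp (s1 / 2 * w) := by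
          apply Real.exp_le_exp.2
          exact mul_le_mul_of_nonneg_right hpd1.le hw0
        have h8 : (s1 / 2 * w) ^ 2 / 2 ≤ Real.exp (s1 / 2 * w) := by
          have h9 := Real.quadratic_le_exp_of_nonneg (x := s1 / 2 * w) (by positivity)
          have h10 : 0 ≤ s1 / 2 * w := by positivity
          linarith
        have h9 : w ^ 2 ≤ 8 / s1 ^ 2 * Real.exp (s1 / 2 * w) := by
          have e2 : w ^ 2 = 8 / s1 ^ 2 * ((s1 / 2 * w) ^ 2 / 2) := by
            field_simp
            ring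
          rw [e2]
          exact mul_le_mul_of_nonneg_left h8 (by positivity)
        have h10 : w ^ 2 * Real.exp (p * w) ≤ 8 / s1 ^ 2 * Real.exp (s1 * w) := by
          calc w ^ 2 * Real.exp (p * w) ≤ (8 / s1 ^ 2 * Real.exp (s1 / 2 * w)) *
                Real.exp (s1 / 2 * w) := by
                apply mul_le_mul h9 h7 (Real.exp_nonneg _) (by positivity)
            _ = _ := by
                rw [mul_assoc, ← Real.exp_add]
                congr 2
                ring
        have h11 := mul_le_mul_of_nonneg_left h10 (show 0 ≤ p ^ 2 by positivity)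
        nlinarith
    -- integrate
    have hint : ENNReal.ofReal (R ^ p) * En p μ' ≤ 1 + ENNReal.ofReal p * LE' R μ' +
        ENNReal.ofReal (p ^ 2 * (8 / s1 ^ 2 * R ^ s1)) * En s1 μ' := by
      exact int3 μ' _ hae R hR0 _ _ _ ENNReal.ofReal_ne_top ENNReal.ofReal_ne_top
        ENNReal.ofReal_ne_top p s1 hpt
    have hint2 : ENNReal.ofReal (R ^ p) * En p μ' ≤
        ENNReal.ofReal (Real.exp (p * L + p ^ 2 * m)) := by
      refine hint.trans ?_
      calc 1 + ENNReal.ofReal p * LE' R μ' +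
          ENNReal.ofReal (p ^ 2 * (8 / s1 ^ 2 * R ^ s1)) * En s1 μ'
          ≤ 1 + ENNReal.ofReal p * ENNReal.ofReal L +
            ENNReal.ofReal (p ^ 2 * (8 / s1 ^ 2 * R ^ s1)) * ENNReal.ofReal M.toReal := by
            gcongr
        _ = ENNReal.ofReal (1 + p * L + p ^ 2 * m) := by
            rw [← ENNReal.ofReal_mul hp.le, ← ENNReal.ofReal_mul (by positivity),
              ← ENNReal.ofReal_one, ← ENNReal.ofReal_add zero_le_one (by positivity),
              ← ENNReal.ofReal_add (by positivity)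
                (mul_nonneg (by positivity) ENNReal.toReal_nonneg)]
            congr 1
            rw [hm]
            ring
        _ ≤ _ := by
            apply ENNReal.ofReal_le_ofReal
            have := Real.add_one_le_exp (p * L + p ^ 2 * m)
            linarith
    have hfinal : En p μ' ≤ ENNReal.ofReal (R ^ (-p) * Real.exp (p * L + p ^ 2 * m)) := by
      have h6 := mul_le_mul_right hint2 (ENNReal.ofReal (R ^ (-p)))
      rwa [← mul_assoc, ← ENNReal.ofReal_mul (by positivity), ← ENNReal.ofReal_mul (by positivity),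
        ← Real.rpow_add hR0, neg_add_cancel, Real.rpow_zero, ENNReal.ofReal_one, one_mul] at h6
    have h7 := capF_ge hp hQ μ' g1 g2 _ (by positivity) hfinal
    refine le_trans ?_ h7
    rw [Real.mul_rpow (by positivity) (Real.exp_nonneg _), ← Real.rpow_mul hR0.le,
      ← Real.exp_mul]
    have e1 : -p * -(1 / p) = 1 := by
      field_simp
    have e2 : (p * L + p ^ 2 * m) * -(1 / p) = -L + -(p * m) := by
      field_simp
      ring
    rw [e1, e2, Real.rpow_one, Real.exp_add, ← hL]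
    have h8 : 1 - p * m ≤ Real.exp (-(p * m)) := by
      have := Real.add_one_le_exp (-(p * m))
      linarith
    have h9 : Real.exp (-L) ≤ 1 := by
      rw [Real.exp_le_one_iff]
      linarith
    have h10 : 0 < Real.exp (-L) := Real.exp_pos _
    have h11 : R * (Real.exp (-L) * (1 - p * m)) ≤ R * (Real.exp (-L) * Real.exp (-(p * m))) := by
      apply mul_le_mul_of_nonneg_left _ hR0.le
      exact mul_le_mul_of_nonneg_left h8 h10.le
    have h12 : R * (Real.exp (-L) * (p * m)) ≤ R * (1 * (p * m)) := by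
      apply mul_le_mul_of_nonneg_left _ hR0.le
      exact mul_le_mul_of_nonneg_right h9 (by positivity)
    have h13 : p * (R * m + 1) ≤ ε := by
      rw [lt_div_iff₀ (by positivity)] at hpd2
      exact hpd2.le
    nlinarith

theorem pc2 (hmoll : PMoll) : PC2 := by
  intro n p0 K hn hp0 hpn hK hne ρ ε hρ hε
  rcases hp0.eq_or_lt with h | h
  · obtain ⟨δ, hδ, h1⟩ := pc2_zero hmoll n K hn hK hne ρ ε hρ hε
    refine ⟨δ, hδ, fun p hp hpd => ?_⟩
    rw [← h] at hp hpd ⊢
    exact h1 p hp (by linarith)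
  · exact pc2_pos hmoll n p0 K hn h hpn hK hne ρ ε hρ hε

end Pool.Agent.W880.RR
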