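import Pool.Agent.W880.RR.C3

/-! RR-C4: volume from the exponent tending to `n` (MP_6cd19d_an). -/

set_option autoImplicit false

namespace Pool.Agent.W880.RR

open MeasureTheory Set Filter Topology
open scoped ENNReal NNReal
open Pool.Agent.Helper88.RB Pool.Agent.W784.RR

theorem rad_int (n : ℕ) (hn : 1 ≤ n) (q ρ : ℝ) (hqn : q < n) (hρ : 0 < ρ) :
    ∫ y in Ioi (0 : ℝ), y ^ (n - 1) • (Iio ρ).indicator (fun t : ℝ => t ^ (-q)) y =
      ρ ^ ((n : ℝ) - q) / (n - q) := by
  have h1 : ∫ y in Ioi (0 : ℝ), y ^ (n - 1) • (Iio ρ).indicator (fun t : ℝ => t ^ (-q)) y =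
      ∫ y in Ioi (0 : ℝ), (Iio ρ).indicator (fun t : ℝ => t ^ ((n : ℝ) - 1 - q)) y := by
    refine setIntegral_congr_fun measurableSet_Ioi fun y hy => ?_
    have hy0 : (0 : ℝ) < y := hy
    by_cases h : y ∈ Iio ρ
    · rw [indicator_of_mem h, indicator_of_mem h, smul_eq_mul, ← Real.rpow_natCast,
        ← Real.rpow_add hy0]
      congr 1
      rw [Nat.cast_sub hn]
      push_cast
      ring
    · rw [indicator_of_notMem h, indicator_of_notMem h, smul_zero]
  have h2 : Ioi (0 : ℝ) ∩ Iio ρ = Ioo 0 ρ := rfl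
  rw [h1, setIntegral_indicator measurableSet_Iio, h2, ← integral_Ioc_eq_integral_Ioo,
    ← intervalIntegral.integral_of_le hρ.le, integral_rpow (Or.inl (by linarith))]
  have h3 : (n : ℝ) - 1 - q + 1 = n - q := by ring
  rw [h3, Real.zero_rpow (by linarith), sub_zero]

theorem riesz_ball {n : ℕ} (hn : 1 ≤ n) (q : ℝ) (hqn : q < n) (ρ : ℝ) (hρ : 0 < ρ) :
    ∫⁻ y in Metric.ball (0 : E n) ρ, (ENNReal.ofReal ‖y‖) ^ (-q) =
      ENNReal.ofReal (n * (volume (Metric.ball (0 : E n) 1)).toReal *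
        (ρ ^ ((n : ℝ) - q) / (n - q))) := by
  have hfr : Module.finrank ℝ (E n) = n := by simp
  have hnt : Nontrivial (E n) := by
    apply Module.nontrivial_of_finrank_pos (R := ℝ)
    rw [hfr]; exact hn
  have hint : IntegrableOn (fun y : E n => ‖y‖ ^ (-q)) (Metric.ball (0 : E n) ρ) := by
    refine integrableOn_ball_of_norm_le_rpow (C := 1) (α := q) (by rw [hfr]; exact hn)
      (by rw [hfr]; exact hqn) ?_ ?_
    · refine Filter.Eventually.of_forall fun x => ?_
      rw [one_mul, Real.norm_of_nonneg (Real.rpow_nonneg (norm_nonneg _) _)]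
    · exact (measurable_norm.pow_const (-q)).aestronglyMeasurable
  have h1 : ∫⁻ y in Metric.ball (0 : E n) ρ, (ENNReal.ofReal ‖y‖) ^ (-q) =
      ENNReal.ofReal (∫ y in Metric.ball (0 : E n) ρ, ‖y‖ ^ (-q)) := by
    rw [ofReal_integral_eq_lintegral_ofReal hint
      (Filter.Eventually.of_forall fun x => Real.rpow_nonneg (norm_nonneg _) _)]
    refine lintegral_congr_ae ?_
    have h4 : ∀ᵐ y ∂((volume : Measure (E n)).restrict (Metric.ball (0 : E n) ρ)), y ≠ 0 := by
      refine ae_restrict_of_ae ?_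
      have : (volume : Measure (E n)) {0} = 0 := measure_singleton 0
      rw [ae_iff]
      simpa using this
    filter_upwards [h4] with y hy
    rw [ENNReal.ofReal_rpow_of_pos (norm_pos_iff.2 hy)]
  have h2 : ∫ y in Metric.ball (0 : E n) ρ, ‖y‖ ^ (-q) =
      ∫ y : E n, (Iio ρ).indicator (fun t : ℝ => t ^ (-q)) ‖y‖ := by
    rw [← integral_indicator measurableSet_ball]
    congr 1
    funext y
    by_cases h : ‖y‖ < ρ
    · rw [indicator_of_mem (by simpa using h), indicator_of_mem (by exact h)]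
    · rw [indicator_of_notMem (by simpa using h), indicator_of_notMem (by exact h)]
  rw [h1, h2, integral_fun_norm_addHaar, hfr, rad_int n hn q ρ hqn hρ, smul_eq_mul,
    nsmul_eq_mul, mul_assoc]
  rfl

/-- bathtub principle -/
theorem bathtub {n : ℕ} (q : ℝ) (hq : 0 < q) (K : Set (E n)) (hK : MeasurableSet K)
    (x : E n) (ρ : ℝ) (hvol : volume K = volume (Metric.ball x ρ)) :
    ∫⁻ y in K, (ENNReal.ofReal (dist x y)) ^ (-q) ≤
      ∫⁻ y in Metric.ball x ρ, (ENNReal.ofReal (dist x y)) ^ (-q) := by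
  have hB : MeasurableSet (Metric.ball x ρ) := measurableSet_ball
  have hBfin : volume (Metric.ball x ρ) ≠ ⊤ := measure_ball_lt_top.ne
  have hdiff : volume (K \ Metric.ball x ρ) = volume (Metric.ball x ρ \ K) := by
    have h1 := measure_inter_add_sdiff (μ := (volume : Measure (E n))) K hB
    have h2 := measure_inter_add_sdiff (μ := (volume : Measure (E n))) (Metric.ball x ρ) hK
    rw [inter_comm] at h2
    rw [hvol, ← h2] at h1
    refine (ENNReal.add_right_inj ?_).1 h1
    exact ne_top_of_le_ne_top hBfin (measure_mono inter_subset_right)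
  rw [← lintegral_inter_add_sdiff _ K hB, ← lintegral_inter_add_sdiff _ (Metric.ball x ρ) hK,
    inter_comm]
  refine add_le_add le_rfl ?_
  calc ∫⁻ y in K \ Metric.ball x ρ, (ENNReal.ofReal (dist x y)) ^ (-q)
      ≤ ∫⁻ _y in K \ Metric.ball x ρ, (ENNReal.ofReal ρ) ^ (-q) := by
        refine setLIntegral_mono' (hK.diff hB) fun y hy => ?_
        rw [ENNReal.rpow_neg, ENNReal.rpow_neg, ENNReal.inv_le_inv]
        apply ENNReal.rpow_le_rpow _ hq.le
        apply ENNReal.ofReal_le_ofReal
        have h := hy.2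
        rw [Metric.mem_ball, not_lt, dist_comm] at h
        exact h
    _ = (ENNReal.ofReal ρ) ^ (-q) * volume (K \ Metric.ball x ρ) := by
        rw [setLIntegral_const]
    _ = (ENNReal.ofReal ρ) ^ (-q) * volume (Metric.ball x ρ \ K) := by rw [hdiff]
    _ = ∫⁻ _y in Metric.ball x ρ \ K, (ENNReal.ofReal ρ) ^ (-q) := by
        rw [setLIntegral_const]
    _ ≤ _ := by
        refine setLIntegral_mono' (hB.diff hK) fun y hy => ?_
        rw [ENNReal.rpow_neg, ENNReal.rpow_neg, ENNReal.inv_le_inv]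
        apply ENNReal.rpow_le_rpow _ hq.le
        apply ENNReal.ofReal_le_ofReal
        have h := hy.1
        rw [Metric.mem_ball, dist_comm] at h
        exact h.le

/-- lower bound of the capacity by the volume radius -/
theorem cap_vol {n : ℕ} (hn : 1 ≤ n) (q : ℝ) (hq : 0 < q) (hqn : q < n) (K : Set (E n))
    (hK : IsCompact K) (ρ : ℝ) (hρ : 0 < ρ)
    (hvol : volume K = volume (Metric.ball (0 : E n) ρ)) :
    ρ * (((n : ℝ) - q) / n) ^ (1 / q) ≤ capF q K := by
  have hn0 : (0 : ℝ) < n := by exact_mod_cast hn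
  have hnq : 0 < (n : ℝ) - q := by linarith
  have hKm := hK.measurableSet
  obtain ⟨b, hb⟩ : ∃ b : ℝ, b = (volume (Metric.ball (0 : E n) 1)).toReal := ⟨_, rfl⟩
  have hfr : Module.finrank ℝ (E n) = n := by simp
  have hnt : Nontrivial (E n) := by
    apply Module.nontrivial_of_finrank_pos (R := ℝ)
    rw [hfr]; exact hn
  have hb0 : 0 < b := by
    rw [hb]
    exact ENNReal.toReal_pos (Metric.measure_ball_pos volume 0 one_pos).ne' measure_ball_lt_top.ne
  have hvolr : volume K = ENNReal.ofReal (ρ ^ n * b) := by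
    rw [hvol, Measure.addHaar_ball _ _ hρ.le, hfr, hb, ENNReal.ofReal_mul (by positivity),
      ENNReal.ofReal_toReal measure_ball_lt_top.ne]
  have hV0 : volume K ≠ 0 := by
    rw [hvolr, ne_eq, ENNReal.ofReal_eq_zero, not_le]
    positivity
  have hVT : volume K ≠ ⊤ := by
    rw [hvolr]
    exact ENNReal.ofReal_ne_top
  set μ : Measure (E n) := (volume K)⁻¹ • (volume : Measure (E n)).restrict K with hμ
  have h1 : μ univ = 1 := by
    rw [hμ, Measure.smul_apply, Measure.restrict_apply_univ, smul_eq_mul,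
      ENNReal.inv_mul_cancel hV0 hVT]
  have h2 : μ Kᶜ = 0 := by
    rw [hμ, Measure.smul_apply, Measure.restrict_apply hKm.compl, compl_inter_self,
      measure_empty, smul_zero]
  have hPE : ∀ x : E n, PE q μ x ≤ ENNReal.ofReal (n * ρ ^ (-q) / (n - q)) := by
    intro x
    unfold PE
    rw [hμ, lintegral_smul_measure, smul_eq_mul]
    have h3 := bathtub q hq K hKm x ρ (by
      rw [hvol]
      exact (Measure.addHaar_ball_center volume x ρ).symm)
    have h4 : ∫⁻ y in Metric.ball x ρ, (ENNReal.ofReal (dist x y)) ^ (-q) =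
        ∫⁻ y in Metric.ball (0 : E n) ρ, (ENNReal.ofReal ‖y‖) ^ (-q) := by
      rw [← lintegral_indicator measurableSet_ball, ← lintegral_indicator measurableSet_ball,
        ← lintegral_add_left_eq_self _ x]
      congr 1
      funext y
      by_cases h : ‖y‖ < ρ
      · rw [indicator_of_mem, indicator_of_mem (by simpa using h)]
        · congr 2
          rw [dist_eq_norm]
          simp
        · rw [Metric.mem_ball, dist_eq_norm]
          simpa using h
      · rw [indicator_of_notMem, indicator_of_notMem (by simpa using h)]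
        rw [Metric.mem_ball, dist_eq_norm]
        simpa using h
    rw [h4, riesz_ball hn q hqn ρ hρ, ← hb] at h3
    refine (mul_le_mul_right h3 _).trans ?_
    rw [hvolr, ← ENNReal.ofReal_inv_of_pos (by positivity), ← ENNReal.ofReal_mul (by positivity)]
    apply ENNReal.ofReal_le_ofReal
    apply le_of_eq
    rw [Real.rpow_sub hρ, Real.rpow_natCast, Real.rpow_neg hρ.le]
    field_simp
  have hprob : IsProbabilityMeasure μ := ⟨h1⟩
  have hEn : En q μ ≤ ENNReal.ofReal (n * ρ ^ (-q) / (n - q)) := by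
    calc En q μ = ∫⁻ x, PE q μ x ∂μ := rfl
      _ ≤ ∫⁻ _x, ENNReal.ofReal (n * ρ ^ (-q) / (n - q)) ∂μ := lintegral_mono hPE
      _ = _ := by simp
  have h5 := capF_ge hq hK μ h1 h2 _ (by positivity) hEn
  refine le_trans (le_of_eq ?_) h5
  have h6 : n * ρ ^ (-q) / (n - q) = ((n - q) / n)⁻¹ * ρ ^ (-q) := by
    field_simp
  rw [h6, Real.mul_rpow (by positivity) (by positivity), ← Real.rpow_mul hρ.le,
    Real.inv_rpow (by positivity), ← Real.rpow_neg (by positivity)]
  have h7 : -q * -(1 / q) = 1 := by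
    field_simp
  rw [h7, Real.rpow_one, neg_neg, mul_comm]

/-- lower bound of `Bc` near the exponent `n` -/
theorem Bc_lower (hcalc : PCalc) (n : ℕ) (q e : ℝ) (hq : 0 < q) (hqn : q < n) (he : 0 < e)
    (he1 : e < 1) :
    (1 - e) ^ n * (1 - (1 - e) ^ 2) ^ (((n : ℝ) - q) / 2) ≤ ((n : ℝ) - q) * Bc n q := by
  obtain ⟨_, hint, _⟩ := hcalc n q hq hqn
  obtain ⟨a, ha⟩ : ∃ a : ℝ, a = ((n : ℝ) - q) / 2 := ⟨_, rfl⟩
  have ha0 : 0 < a := by rw [ha]; linarith
  have hnq : (n : ℝ) - q = 2 * a := by rw [ha]; ring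
  have hc0 : 0 < 1 - e := by linarith
  -- derivative
  have hder : ∀ v ∈ Ioo (1 - e) 1, HasDerivAt (fun v : ℝ => -((1 - v ^ 2) ^ a / (2 * a)))
      (v * (1 - v ^ 2) ^ (a - 1)) v := by
    intro v hv
    have hv0 : 0 < v := lt_trans hc0 hv.1
    have hv2 : 0 < 1 - v ^ 2 := by nlinarith [hv.2]
    have h1 : HasDerivAt (fun v : ℝ => 1 - v ^ 2) (-(2 * v)) v := by
      have h2 := (hasDerivAt_pow 2 v).const_sub 1
      simpa using h2
    have h2 := h1.rpow_const (p := a) (Or.inl hv2.ne')
    have h3 := (h2.div_const (2 * a)).neg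
    have h4 : v * (1 - v ^ 2) ^ (a - 1) = -(-(2 * v) * a * (1 - v ^ 2) ^ (a - 1) / (2 * a)) := by
      field_simp
    rw [h4]
    exact h3
  have hcont : ContinuousOn (fun v : ℝ => -((1 - v ^ 2) ^ a / (2 * a))) (Icc (1 - e) 1) := by
    apply Continuous.continuousOn
    apply Continuous.neg
    apply Continuous.div_const
    exact (by fun_prop : Continuous fun v : ℝ => 1 - v ^ 2).rpow_const fun v => Or.inr ha0.le
  have hintg : IntegrableOn (fun v : ℝ => v * (1 - v ^ 2) ^ (a - 1)) (Ioc (1 - e) 1) := by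
    apply intervalIntegral.integrableOn_deriv_of_nonneg hcont hder
    intro v hv
    have hv0 : 0 < v := lt_trans hc0 hv.1
    have hv2 : 0 < 1 - v ^ 2 := by nlinarith [hv.2]
    positivity
  have hii : IntervalIntegrable (fun v : ℝ => v * (1 - v ^ 2) ^ (a - 1)) volume (1 - e) 1 := by
    rw [intervalIntegrable_iff_integrableOn_Ioc_of_le (by linarith)]
    exact hintg
  have hftc : ∫ v in (1 - e)..1, v * (1 - v ^ 2) ^ (a - 1) =
      (1 - (1 - e) ^ 2) ^ a / (2 * a) := by
    rw [intervalIntegral.integral_eq_sub_of_hasDerivAt_of_le (by linarith) hcont hder hii]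
    have : (1 : ℝ) - 1 ^ 2 = 0 := by norm_num
    rw [this, Real.zero_rpow ha0.ne']
    ring
  -- comparison
  have hsub : IntervalIntegrable (wt n q) volume (1 - e) 1 := by
    apply hint.mono_set
    rw [uIcc_of_le (by linarith), uIcc_of_le (by linarith)]
    exact Icc_subset_Icc (by linarith) le_rfl
  have hsub0 : IntervalIntegrable (wt n q) volume 0 (1 - e) := by
    apply hint.mono_set
    rw [uIcc_of_le (by linarith), uIcc_of_le (by linarith)]
    exact Icc_subset_Icc le_rfl (by linarith)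
  have hsplit : Bc n q = (∫ v in (0:ℝ)..(1 - e), wt n q v) + ∫ v in (1 - e)..1, wt n q v := by
    unfold Bc
    rw [intervalIntegral.integral_add_adjacent_intervals hsub0 hsub]
  have hpos0 : 0 ≤ ∫ v in (0:ℝ)..(1 - e), wt n q v := by
    apply intervalIntegral.integral_nonneg (by linarith)
    intro v hv
    unfold wt
    have hv2 : 0 ≤ 1 - v ^ 2 := by nlinarith [hv.2, hv.1]
    have := hv.1
    positivity
  have hcmp : ∫ v in (1 - e)..1, (1 - e) ^ n * (v * (1 - v ^ 2) ^ (a - 1)) ≤
      ∫ v in (1 - e)..1, wt n q v := by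
    apply intervalIntegral.integral_mono_on (by linarith) (hii.const_mul _) hsub
    intro v hv
    unfold wt
    rw [← ha]
    have hv0 : 0 < v := lt_of_lt_of_le hc0 hv.1
    have hv1 : v ≤ 1 := hv.2
    have hv2 : 0 ≤ 1 - v ^ 2 := by nlinarith
    have h1 : (1 - e) ^ n * v ≤ v ^ (q - 1) := by
      have h2 : (1 - e) ^ n ≤ v ^ n := pow_le_pow_left₀ hc0.le hv.1 n
      have h3 : v ^ (n : ℝ) * v = v ^ ((n : ℝ) + 1) := by
        rw [Real.rpow_add hv0, Real.rpow_one]
      calc (1 - e) ^ n * v ≤ v ^ n * v := mul_le_mul_of_nonneg_right h2 hv0.le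
        _ = v ^ ((n : ℝ) + 1) := by rw [← h3, Real.rpow_natCast]
        _ ≤ v ^ (q - 1) := Real.rpow_le_rpow_of_exponent_ge hv0 hv1 (by linarith)
    have h4 : 0 ≤ (1 - v ^ 2) ^ (a - 1) := Real.rpow_nonneg hv2 _
    calc (1 - e) ^ n * (v * (1 - v ^ 2) ^ (a - 1)) =
          ((1 - e) ^ n * v) * (1 - v ^ 2) ^ (a - 1) := by ring
      _ ≤ _ := mul_le_mul_of_nonneg_right h1 h4
  rw [intervalIntegral.integral_const_mul, hftc] at hcmp
  rw [hsplit, ← ha, hnq]
  have h5 : (1 - e) ^ n * (1 - (1 - e) ^ 2) ^ a =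
      2 * a * ((1 - e) ^ n * ((1 - (1 - e) ^ 2) ^ a / (2 * a))) := by
    field_simp
  rw [h5]
  apply mul_le_mul_of_nonneg_left _ (by positivity)
  linarith

theorem pvol (hcalc : PCalc) (hball : PBall) : PVol := by
  intro n K hn hK hne ε p hε hpn
  have hn0 : (0 : ℝ) < n := by exact_mod_cast hn
  have hfr : Module.finrank ℝ (E n) = n := by simp
  have hnt : Nontrivial (E n) := by
    apply Module.nontrivial_of_finrank_pos (R := ℝ)
    rw [hfr]; exact hn
  obtain ⟨b, hb⟩ : ∃ b : ℝ, b = (volume (Metric.closedBall (0 : E n) 1)).toReal := ⟨_, rfl⟩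
  have hbb : volume (Metric.closedBall (0 : E n) 1) = volume (Metric.ball (0 : E n) 1) :=
    Measure.addHaar_closedBall_eq_addHaar_ball _ _ _
  have hb0 : 0 < b := by
    rw [hb, hbb]
    exact ENNReal.toReal_pos (Metric.measure_ball_pos volume 0 one_pos).ne' measure_ball_lt_top.ne
  by_cases hV : volume K = 0
  · obtain ⟨q, hq1, hq2⟩ := exists_between
      (show max p (max ((n : ℝ) - 2) 0) < n from max_lt hpn (max_lt (by linarith) hn0))
    refine ⟨q, (le_max_left _ _).trans_lt hq1,
      ((le_max_left _ _).trans (le_max_right _ _)).trans_lt hq1,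
      ((le_max_right _ _).trans (le_max_right _ _)).trans_lt hq1, hq2, ?_⟩
    rw [hV, ENNReal.toReal_zero, zero_div, Real.zero_rpow (by positivity)]
    have := div_nonneg (capF_nonneg q K) (capF_nonneg q (Metric.closedBall (0 : E n) 1))
    linarith
  · have hVT : volume K ≠ ⊤ := hK.measure_lt_top.ne
    obtain ⟨V, hVdef⟩ : ∃ V : ℝ, V = (volume K).toReal := ⟨_, rfl⟩
    have hV0 : 0 < V := by
      rw [hVdef]
      exact ENNReal.toReal_pos hV hVT
    obtain ⟨ρ, hρ⟩ : ∃ ρ : ℝ, ρ = (V / b) ^ (1 / (n : ℝ)) := ⟨_, rfl⟩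
    have hρ0 : 0 < ρ := by rw [hρ]; positivity
    have hρn : ρ ^ n = V / b := by
      rw [hρ, ← Real.rpow_natCast, ← Real.rpow_mul (by positivity), one_div,
        inv_mul_cancel₀ hn0.ne', Real.rpow_one]
    have hvol : volume K = volume (Metric.ball (0 : E n) ρ) := by
      rw [Measure.addHaar_ball _ _ hρ0.le, hfr, hρn, ← hbb,
        ← ENNReal.ofReal_toReal (measure_closedBall_lt_top (x := (0 : E n)) (r := 1)
          (μ := volume)).ne, ← hb, ← ENNReal.ofReal_mul (by positivity),
        div_mul_cancel₀ _ hb0.ne', hVdef, ENNReal.ofReal_toReal hVT]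
    obtain ⟨e, he⟩ : ∃ e : ℝ, e = min (1 / 2) (ε / (2 * (ρ + 1))) := ⟨_, rfl⟩
    have he0 : 0 < e := by
      rw [he]
      positivity
    have he1 : e < 1 := by
      rw [he]
      exact (min_le_left _ _).trans_lt (by norm_num)
    have hρe : ρ * e ≤ ε / 2 := by
      have h1 : e ≤ ε / (2 * (ρ + 1)) := by
        rw [he]
        exact min_le_right _ _
      calc ρ * e ≤ ρ * (ε / (2 * (ρ + 1))) := mul_le_mul_of_nonneg_left h1 hρ0.le
        _ ≤ (ρ + 1) * (ε / (2 * (ρ + 1))) := by
            apply mul_le_mul_of_nonneg_right _ (by positivity)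
            linarith
        _ = ε / 2 := by field_simp
    have hc0 : 0 < 1 - e := by linarith
    have hc2 : 0 < 1 - (1 - e) ^ 2 := by nlinarith
    -- the comparison function
    have hcont : ContinuousAt (fun q : ℝ => ρ * ((1 - e) ^ n *
        (1 - (1 - e) ^ 2) ^ (((n : ℝ) - q) / 2) * (q / n)) ^ (1 / q)) n := by
      apply ContinuousAt.mul continuousAt_const
      apply ContinuousAt.rpow
      · apply ContinuousAt.mul
        · apply ContinuousAt.mul continuousAt_const
          apply ContinuousAt.rpow continuousAt_const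
          · fun_prop
          · left
            exact hc2.ne'
        · fun_prop
      · exact continuousAt_const.div continuousAt_id hn0.ne'
      · left
        rw [sub_self, zero_div, Real.rpow_zero, div_self hn0.ne', mul_one, mul_one]
        positivity
    have hval : ρ * ((1 - e) ^ n * (1 - (1 - e) ^ 2) ^ (((n : ℝ) - n) / 2) *
        ((n : ℝ) / n)) ^ (1 / (n : ℝ)) = ρ * (1 - e) := by
      rw [sub_self, zero_div, Real.rpow_zero, div_self hn0.ne', mul_one, mul_one,
        ← Real.rpow_natCast, ← Real.rpow_mul hc0.le, mul_one_div, div_self hn0.ne', Real.rpow_one]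
    have hlim := hcont.tendsto
    simp only [hval] at hlim
    have hev := hlim.eventually (lt_mem_nhds (show ρ * (1 - e) - ε / 2 < ρ * (1 - e) by linarith))
    have hev2 := (hev.filter_mono (nhdsWithin_le_nhds (s := Iio (n : ℝ)))).and
      (Ioo_mem_nhdsLT (show max p (max ((n : ℝ) - 2) 0) < n from
        max_lt hpn (max_lt (by linarith) hn0)))
    obtain ⟨q, hq1, hq2, hq3⟩ := hev2.exists
    have hpq : p < q := (le_max_left _ _).trans_lt hq2
    have hq2' : (n : ℝ) - 2 < q := ((le_max_left _ _).trans (le_max_right _ _)).trans_lt hq2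
    have hq0 : 0 < q := ((le_max_right _ _).trans (le_max_right _ _)).trans_lt hq2
    refine ⟨q, hpq, hq2', hq0, hq3, ?_⟩
    rw [← hb, ← hVdef, ← hρ]
    have hcapK := cap_vol hn q hq0 hq3 K hK ρ hρ0 hvol
    obtain ⟨hmc, hEI⟩ := hball n q hn hq0 hq2' hq3
    have hnq : 0 < (n : ℝ) - q := by linarith
    have hcapB : capF q (Metric.closedBall (0 : E n) 1) = (mc n q) ^ (1 / q) := by
      rw [pc0 n q _ hq0, hEI, ← ENNReal.toReal_rpow, ENNReal.toReal_inv,
        ENNReal.toReal_ofReal (by positivity), one_div, inv_inv, one_div]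
    have hBl := Bc_lower hcalc n q e hq0 hq3 he0 he1
    have hBc0 : 0 < Bc n q := (hcalc n q hq0 hq3).1
    rw [hcapB]
    have h1 : ρ * ((1 - e) ^ n * (1 - (1 - e) ^ 2) ^ (((n : ℝ) - q) / 2) * (q / n)) ^ (1 / q) ≤
        capF q K / (mc n q) ^ (1 / q) := by
      rw [le_div_iff₀ (by positivity), mul_assoc, ← Real.mul_rpow (by positivity) hmc.le]
      refine le_trans ?_ hcapK
      apply mul_le_mul_of_nonneg_left _ hρ0.le
      apply Real.rpow_le_rpow (by positivity) _ (by positivity)
      have h2 : mc n q = 1 / (q * Bc n q) := rfl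
      rw [h2]
      have h3 : (1 - e) ^ n * (1 - (1 - e) ^ 2) ^ (((n : ℝ) - q) / 2) * (q / n) *
          (1 / (q * Bc n q)) = ((1 - e) ^ n * (1 - (1 - e) ^ 2) ^ (((n : ℝ) - q) / 2)) /
            (n * Bc n q) := by
        field_simp
      rw [h3, div_le_div_iff₀ (by positivity) hn0]
      calc (1 - e) ^ n * (1 - (1 - e) ^ 2) ^ (((n : ℝ) - q) / 2) * n ≤
            (((n : ℝ) - q) * Bc n q) * n := mul_le_mul_of_nonneg_right hBl hn0.le
        _ = _ := by ring
    nlinarith

end Pool.Agent.W880.RR
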